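import Mathlib

/-! Reduction of polynomial identities to a finite field, and roots of Frobenius. -/

open MvPolynomial

set_option linter.unusedSectionVars false
set_option linter.unusedVariables false

noncomputable section

namespace Pool.Agent.Lib.NV

theorem jac_int : IsJacobsonRing ℤ := by
  rw [isJacobsonRing_iff_prime_eq]
  intro P hP
  by_cases h : P = ⊥
  · subst h
    rw [eq_bot_iff]
    intro x hx
    have := Ideal.mem_jacobson_bot.1 hx x
    rw [Int.isUnit_iff] at this
    have h2 := mul_self_nonneg x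
    rw [Ideal.mem_bot]
    rcases this with h1 | h1
    · exact mul_self_eq_zero.1 (by omega)
    · omega
  · have := IsPrime.to_maximal_ideal h
    exact Ideal.jacobson_eq_self_of_isMaximal

theorem fin_field (K : Type*) [Field K] [Algebra.FiniteType ℤ K] : Finite K := by
  have := jac_int
  have hf : Module.Finite ℤ K := finite_of_finite_type_of_isJacobsonRing ℤ K
  obtain ⟨p, hp⟩ := CharP.exists K
  rcases CharP.char_is_prime_or_zero K p with h | h
  · refine Module.finite_of_fg_torsion K ?_
    intro x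
    refine ⟨⟨(p : ℤ), mem_nonZeroDivisors_of_ne_zero (by exact_mod_cast h.ne_zero)⟩, ?_⟩
    simp [Submonoid.smul_def]
  · subst h
    have : CharZero K := CharP.charP_to_charZero K
    exact absurd (isField_of_isIntegral_of_isField (R := ℤ) (S := K) (algebraMap ℤ K).injective_int
      (Field.toIsField K)) Int.not_isField

/-- A finitely generated subring of a field maps to a finite field. -/
theorem exists_res {k : Type} [Field k] (s : Set k) (hs : s.Finite) :
    ∃ (R : Subring k) (κ : Type) (_ : Field κ) (_ : Finite κ) (π : R →+* κ), s ⊆ R := by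
  let A := Algebra.adjoin ℤ s
  have h1 : Algebra.FiniteType ℤ A := .adjoin_of_finite hs
  obtain ⟨m, hm⟩ := Ideal.exists_maximal A
  let _ := Ideal.Quotient.field m
  have h := Algebra.FiniteType.of_surjective (Ideal.Quotient.mk m).toIntAlgHom
    Ideal.Quotient.mk_surjective
  exact ⟨A.toSubring, A ⧸ m, inferInstance, @fin_field (A ⧸ m) _ h, Ideal.Quotient.mk m,
    Algebra.subset_adjoin⟩

section lin

variable {k : Type} [Field k] {I J : Type} [Fintype I]

/-- A certificate for the injectivity of a linear system. -/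
theorem cert (A : J → I → k) (h : ∀ c : I → k, (∀ j, ∑ i, A j i * c i = 0) → c = 0) :
    ∃ s : Set k, s.Finite ∧ ∀ (R : Subring k), s ⊆ R → ∀ (κ : Type) [Field κ] (π : R →+* κ)
      (A' : J → I → R), (∀ j i, (A' j i : k) = A j i) →
      ∀ c : I → κ, (∀ j, ∑ i, π (A' j i) * c i = 0) → c = 0 := by
  classical
  let l : J → (I → k) →ₗ[k] k := fun j => ∑ i, A j i • LinearMap.proj i
  have hl : ∀ j c, l j c = ∑ i, A j i * c i := fun j c => by simp [l]
  have h1 : ∀ i, ∃ b : J →₀ k, (b.sum fun j a => a • l j) = LinearMap.proj i := fun i =>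
    Finsupp.mem_span_range_iff_exists_finsupp.1
      (FiniteDimensional.mem_span_of_iInf_ker_le_ker fun c hc => by
        rw [h c fun j => by rw [← hl]; exact (Submodule.mem_iInf _).1 hc j]
        exact zero_mem _)
  choose b hb using h1
  refine ⟨⋃ i, (b i) '' (b i).support, Set.finite_iUnion fun i => (Finset.finite_toSet _).image _,
    fun R hR κ _ π A' hA c hc => funext fun i => ?_⟩
  have h2 : ∀ j, b i j ∈ R := fun j => by
    by_cases hj : j ∈ (b i).support
    · exact hR (Set.mem_iUnion.2 ⟨i, j, hj, rfl⟩)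
    · rw [Finsupp.notMem_support_iff.1 hj]; exact zero_mem _
  have h3 : ∀ i', ∑ j ∈ (b i).support, (⟨b i j, h2 j⟩ : R) * A' j i' = if i' = i then 1 else 0 := by
    intro i'
    apply Subtype.ext
    have h4 := LinearMap.congr_fun (hb i) (Pi.single i' 1)
    simp only [Finsupp.sum, LinearMap.coe_sum, Finset.sum_apply, LinearMap.smul_apply, hl,
      LinearMap.proj_apply, smul_eq_mul, Pi.single_apply, mul_ite, mul_one, mul_zero,
      Finset.sum_ite_eq', Finset.mem_univ, if_true] at h4
    rw [AddSubmonoidClass.coe_finsetSum]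
    simp only [MulMemClass.coe_mul, hA]
    rw [h4]
    by_cases h5 : i = i'
    · simp [h5]
    · simp [h5, Ne.symm h5]
  calc c i = ∑ i', π (if i' = i then 1 else 0) * c i' := by
        simp [apply_ite π]
    _ = ∑ j ∈ (b i).support, π ⟨b i j, h2 j⟩ * ∑ i', π (A' j i') * c i' := by
        simp only [← h3, map_sum, map_mul, Finset.sum_mul, Finset.mul_sum, mul_assoc]
        exact Finset.sum_comm
    _ = 0 := by simp [hc]

end lin

section poly

variable {σ : Type} [Finite σ]

theorem fin_deg (d : ℕ) : {α : σ →₀ ℕ | (α.sum fun _ e => e) ≤ d}.Finite :=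
  Finsupp.finite_of_degree_le d

theorem eq_sum {R : Type} [CommRing R] {d : ℕ} {c : MvPolynomial σ R} (h : c.totalDegree ≤ d) :
    c = ∑ α ∈ (fin_deg (σ := σ) d).toFinset, coeff α c • monomial α (1 : R) := by
  classical
  conv_lhs => rw [c.as_sum]
  rw [Finset.sum_subset (s₂ := (fin_deg (σ := σ) d).toFinset)]
  · exact Finset.sum_congr rfl fun α _ => by rw [smul_monomial, smul_eq_mul, mul_one]
  · exact fun α hα => (Set.Finite.mem_toFinset _).2 ((le_totalDegree hα).trans h)
  · intro α _ hα
    rw [notMem_support_iff.1 hα, map_zero]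

theorem coeff_rel {R I : Type} [CommRing R] [Fintype I] {d : ℕ} (a : I → MvPolynomial σ R)
    (c : I × (fin_deg (σ := σ) d).toFinset → R) (β : σ →₀ ℕ) :
    coeff β (∑ i, a i * ∑ α : (fin_deg (σ := σ) d).toFinset, c (i, α) • monomial α.1 (1 : R)) =
      ∑ p : I × (fin_deg (σ := σ) d).toFinset, coeff β (a p.1 * monomial p.2.1 1) * c p := by
  rw [Fintype.sum_prod_type, coeff_sum]
  refine Finset.sum_congr rfl fun i _ => ?_
  rw [Finset.mul_sum, coeff_sum]
  exact Finset.sum_congr rfl fun α _ => by rw [mul_smul_comm, coeff_smul, smul_eq_mul, mul_comm]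

/-- Spreading out finitely many polynomials and reducing them to a finite field. -/
theorem spread {k : Type} [Field k] {I J : Type} [Fintype I] (F : Set (MvPolynomial σ k))
    (hF : F.Finite) (a : J → I → MvPolynomial σ k) (d : ℕ)
    (h : ∀ c : I → MvPolynomial σ k, (∀ i, (c i).totalDegree ≤ d) →
      (∀ j, ∑ i, a j i * c i = 0) → c = 0) :
    ∃ (S : Subring (MvPolynomial σ k)) (κ : Type) (_ : Field κ) (_ : Finite κ)
      (π : S →+* MvPolynomial σ κ), F ⊆ S ∧ (∀ s : S, s.1 ∈ F → s.1 ≠ 0 → π s ≠ 0) ∧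
      (∀ s : S, (π s).totalDegree ≤ s.1.totalDegree) ∧
      ∀ a' : J → I → S, (∀ j i, (a' j i).1 = a j i) → ∀ c : I → MvPolynomial σ κ,
        (∀ i, (c i).totalDegree ≤ d) → (∀ j, ∑ i, π (a' j i) * c i = 0) → c = 0 := by
  classical
  obtain ⟨s, hs, h1⟩ := cert (I := I × (fin_deg (σ := σ) d).toFinset) (J := J × (σ →₀ ℕ))
    (fun j p => coeff j.2 (a j.1 p.1 * monomial p.2.1 1)) fun c hc => by
      have h1 := h (fun i => ∑ α : (fin_deg (σ := σ) d).toFinset, c (i, α) • monomial α.1 (1 : k))
        (fun i => totalDegree_finsetSum_le fun α _ => (totalDegree_smul_le _ _).trans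
          ((totalDegree_monomial_le _ _).trans ((fin_deg (σ := σ) d).mem_toFinset.1 α.2)))
        fun j => MvPolynomial.ext _ _ fun β => by rw [coeff_rel, coeff_zero]; exact hc (j, β)
      funext p
      have h2 := congrArg (coeff p.2.1) (congrFun h1 p.1)
      rw [coeff_sum, Finset.sum_eq_single p.2 (fun α _ hα => by
        rw [coeff_smul, coeff_monomial, if_neg fun e => hα (Subtype.ext e), smul_zero])
        (by simp)] at h2
      simpa using h2
  obtain ⟨R, κ, _, _, π, hR⟩ := exists_res
    (s ∪ ⋃ f ∈ F, ((f.coeffs : Set k) ∪ (fun x => x⁻¹) '' f.coeffs))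
    (hs.union (hF.biUnion fun f _ => (Finset.finite_toSet _).union
      ((Finset.finite_toSet _).image _)))
  have hinj : Function.Injective (map (σ := σ) R.subtype) := map_injective _ Subtype.val_injective
  let e := (map (σ := σ) R.subtype).rangeRestrict
  have he : Function.Bijective e :=
    ⟨fun x y h => hinj (congrArg Subtype.val h), (map R.subtype).rangeRestrict_surjective⟩
  let e' := RingEquiv.ofBijective e he
  have h2 : ∀ (z : (map (σ := σ) R.subtype).range) (α), (↑(coeff α (e'.symm z)) : k) = coeff α z.1 :=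
    fun z α => by
      conv_rhs => rw [← e'.apply_symm_apply z]
      exact (coeff_map R.subtype _ α).symm
  have h3 : ∀ f ∈ F, ∀ x ∈ f.coeffs, x ∈ R ∧ x⁻¹ ∈ R := fun f hf x hx =>
    ⟨hR (Or.inr (Set.mem_biUnion hf (Or.inl hx))),
      hR (Or.inr (Set.mem_biUnion hf (Or.inr ⟨x, hx, rfl⟩)))⟩
  refine ⟨(map (σ := σ) R.subtype).range, κ, inferInstance, inferInstance,
    (map π).comp e'.symm.toRingHom, fun f hf => mem_range_map_iff_coeffs_subset.2 fun x hx =>
      ⟨⟨x, (h3 f hf x hx).1⟩, rfl⟩, fun z hz h0 h4 => ?_, fun z => ?_, fun a' ha c hc h4 => ?_⟩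
  · obtain ⟨α, hα⟩ := ne_zero_iff.1 h0
    have h5 := (h3 _ hz _ (coeff_mem_coeffs α hα)).2
    have h6 : π (coeff α (e'.symm z)) = 0 := by
      have := congrArg (coeff α) h4
      rwa [coeff_zero, RingHom.comp_apply, coeff_map] at this
    have h7 : coeff α (e'.symm z) * ⟨_, h5⟩ = 1 := Subtype.ext (by
      rw [MulMemClass.coe_mul, h2]; exact mul_inv_cancel₀ hα)
    have h8 := congrArg π h7
    rw [map_mul, h6, zero_mul, map_one] at h8
    exact zero_ne_one h8
  · refine Finset.sup_le fun α hα => le_totalDegree (mem_support_iff.2 fun h0 => ?_)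
    have h5 : coeff α (e'.symm z) = 0 := Subtype.ext ((h2 z α).trans h0)
    exact mem_support_iff.1 (support_map_subset π _ hα) h5
  · have h5 := h1 R (fun x hx => hR (Or.inl hx)) κ π
      (fun j p => coeff j.2 (e'.symm (a' j.1 p.1) * monomial p.2.1 1)) (fun j p => by
        change R.subtype _ = _
        rw [← coeff_map, map_mul, map_monomial, map_one, ← ha]
        congr 2
        exact congrArg Subtype.val (e'.apply_symm_apply _))
      (fun p => coeff p.2.1 (c p.1)) fun j => by
        have h5 := congrArg (coeff j.2) (h4 j.1)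
        rw [coeff_zero, Finset.sum_congr rfl fun i _ => by
          rw [eq_sum (hc i), ← Finset.sum_coe_sort]] at h5
        rw [← h5, coeff_rel (c := fun p => coeff p.2.1 (c p.1))]
        refine Finset.sum_congr rfl fun p _ => ?_
        rw [← coeff_map, map_mul, map_monomial, map_one]
        rfl
    funext i
    rw [eq_sum (hc i), Finset.sum_eq_zero fun α hα => by
      rw [show coeff α (c i) = 0 from congrFun h5 (i, ⟨α, hα⟩), zero_smul]]
    rfl

end poly

section phi

variable {σ κ : Type} [Field κ]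

theorem inj_aff {q : ℕ} (hq : 0 < q) (γ : σ →₀ ℕ) :
    Function.Injective fun α : σ →₀ ℕ => q • α + γ := fun α β h => by
  ext i
  have := DFunLike.congr_fun h i
  simp only [Finsupp.add_apply, Finsupp.smul_apply, smul_eq_mul, add_left_inj] at this
  exact Nat.eq_of_mul_eq_mul_left hq this

/-- Extraction of the coefficients in an arithmetic progression. -/
def phi {q : ℕ} (hq : 0 < q) (γ : σ →₀ ℕ) : MvPolynomial σ κ →+ MvPolynomial σ κ where
  toFun f := AddMonoidAlgebra.ofCoeff
    (Finsupp.comapDomain (fun α => q • α + γ) (AddMonoidAlgebra.coeff f) (inj_aff hq γ).injOn)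
  map_zero' := MvPolynomial.ext _ _ fun _ => rfl
  map_add' _ _ := MvPolynomial.ext _ _ fun _ => rfl

theorem coeff_phi {q : ℕ} (hq : 0 < q) (γ α : σ →₀ ℕ) (f : MvPolynomial σ κ) :
    coeff α (phi hq γ f) = coeff (q • α + γ) f := rfl

theorem phi_expand {q : ℕ} (hq : 0 < q) {γ : σ →₀ ℕ} (hγ : ∀ i, γ i < q)
    (s f : MvPolynomial σ κ) : phi hq γ (expand q s * f) = s * phi hq γ f := by
  classical
  induction s using MvPolynomial.induction_on' with
  | add s t hs ht => rw [map_add, add_mul, map_add, hs, ht, add_mul]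
  | monomial β c =>
    ext α
    rw [expand_monomial, coeff_phi, coeff_monomial_mul', coeff_monomial_mul', coeff_phi]
    have h1 : q • β ≤ q • α + γ ↔ β ≤ α := by
      refine ⟨fun h i => ?_, fun h i => ?_⟩
      · have h2 := h i
        have h3 := hγ i
        simp only [Finsupp.add_apply, Finsupp.smul_apply, smul_eq_mul] at h2
        exact Nat.lt_succ_iff.1 (Nat.lt_of_mul_lt_mul_left (a := q) (by rw [Nat.mul_succ]; omega))
      · simp only [Finsupp.add_apply, Finsupp.smul_apply, smul_eq_mul]
        exact (Nat.mul_le_mul_left q (h i)).trans (Nat.le_add_right _ _)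
    by_cases h : β ≤ α
    · rw [if_pos h, if_pos (h1.2 h)]
      congr 2
      ext i
      have h2 := Nat.mul_le_mul_left q (h i)
      simp only [Finsupp.add_apply, Finsupp.smul_apply, smul_eq_mul, Finsupp.tsub_apply,
        Nat.mul_sub]
      omega
    · rw [if_neg h, if_neg (mt h1.1 h)]

theorem deg_phi {q : ℕ} (hq : 0 < q) (γ : σ →₀ ℕ) (f : MvPolynomial σ κ) {d : ℕ}
    (h : f.totalDegree < q * (d + 1)) : (phi hq γ f).totalDegree ≤ d := by
  refine Finset.sup_le fun α hα => ?_
  have h1 := le_totalDegree (p := f) (s := q • α + γ) (mem_support_iff.2 (mem_support_iff (p := phi hq γ f).1 hα))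
  change Finsupp.degree _ ≤ _ at h1
  rw [map_add, map_nsmul, smul_eq_mul] at h1
  change Finsupp.degree α ≤ d
  exact Nat.lt_succ_iff.1 (Nat.lt_of_mul_lt_mul_left (a := q)
    (((Nat.le_add_right _ _).trans h1).trans_lt h))

theorem exists_phi {q : ℕ} (hq : 0 < q) {f : MvPolynomial σ κ} (hf : f ≠ 0) :
    ∃ γ : σ →₀ ℕ, (∀ i, γ i < q) ∧ phi hq γ f ≠ 0 := by
  obtain ⟨β, hβ⟩ := ne_zero_iff.1 hf
  refine ⟨β.mapRange (· % q) (Nat.zero_mod q), fun i => Nat.mod_lt _ hq,
    ne_zero_iff.2 ⟨β.mapRange (· / q) (Nat.zero_div q), ?_⟩⟩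
  rw [coeff_phi]
  have : q • β.mapRange (· / q) (Nat.zero_div q) + β.mapRange (· % q) (Nat.zero_mod q) = β := by
    ext i
    simp [Nat.div_add_mod]
  rwa [this]

theorem exists_q (κ : Type) [Field κ] [Finite κ] (B : ℕ) : ∃ p e : ℕ, p.Prime ∧ (p : κ) = 0 ∧
    B < p ^ e ∧ ∀ s : MvPolynomial σ κ, s ^ p ^ e = expand (p ^ e) s := by
  have := Fintype.ofFinite κ
  obtain ⟨p, hp⟩ := CharP.exists κ
  obtain ⟨f, h1, h2⟩ := FiniteField.card κ p
  have := Fact.mk h1
  refine ⟨p, f * B, h1, CharP.cast_eq_zero κ p, ?_, fun s => ?_⟩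
  · exact (Nat.lt_pow_self h1.one_lt).trans_le
      (Nat.pow_le_pow_right h1.pos (Nat.le_mul_of_pos_left _ f.2))
  · induction s using MvPolynomial.induction_on with
    | C c => rw [expand_C, ← map_pow, pow_mul, ← h2, FiniteField.pow_card_pow]
    | add s t hs ht => rw [add_pow_char_pow, hs, ht, map_add]
    | mul_X s i hs => rw [mul_pow, hs, map_mul, expand_X]

end phi

end Pool.Agent.Lib.NV
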