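import Pool.Agent.Lib.NV.Spread

/-! A non-vanishing statement obtained from traces of Frobenius powers. -/

open MvPolynomial Module Set
open scoped Pointwise nonZeroDivisors

set_option linter.unusedSectionVars false
set_option linter.unusedVariables false

noncomputable section

namespace Pool.Agent.Lib.NV

variable {σ k K L : Type} [Finite σ] [Field k] [Field K] [Field L] [Algebra (MvPolynomial σ k) K]
  [IsFractionRing (MvPolynomial σ k) K] [Algebra K L] [Algebra (MvPolynomial σ k) L]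
  [IsScalarTower (MvPolynomial σ k) K L] [FiniteDimensional K L] [Algebra.IsSeparable K L]

variable (σ k) in
/-- Polynomials of bounded degree. -/
def Pol (D : ℕ) (z : K) : Prop :=
  ∃ s : MvPolynomial σ k, s.totalDegree ≤ D ∧ algebraMap (MvPolynomial σ k) K s = z

variable {κ ι : Type} [Fintype κ] [Fintype ι] (β : Basis κ K L)

variable (σ k) in
theorem exists_den {J : Type} [Finite J] (w : J → L) : ∃ Δ : MvPolynomial σ k, Δ ≠ 0 ∧
    ∃ a : J → κ → MvPolynomial σ k, ∀ j, Δ • w j = ∑ m, a j m • β m := by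
  obtain ⟨Δ, h⟩ := IsLocalization.exist_integer_multiples_of_finite (MvPolynomial σ k)⁰
    fun p : J × κ => β.repr (w p.1) p.2
  choose a ha using h
  refine ⟨Δ, nonZeroDivisors.coe_ne_zero Δ, fun j m => a (j, m), fun j => ?_⟩
  conv_lhs => rw [← β.sum_repr (w j), Finset.smul_sum]
  exact Finset.sum_congr rfl fun m _ => by rw [← smul_assoc, ← ha (j, m), algebraMap_smul]

theorem tr_smul (s : MvPolynomial σ k) (v : L) :
    Algebra.trace K L (s • v) = algebraMap (MvPolynomial σ k) K s * Algebra.trace K L v := by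
  rw [← algebraMap_smul K s v, map_smul, smul_eq_mul]

theorem exists_dual : ∃ ε : κ → L, (∀ v, v = ∑ m, Algebra.trace K L (v * β m) • ε m) ∧
    ∀ (c : κ → K) (m : κ), Algebra.trace K L ((∑ j, c j • ε j) * β m) = c m := by
  classical
  let ε := (Algebra.traceForm K L).dualBasis (traceForm_nondegenerate K L) β
  have h : ∀ v m, ε.repr v m = Algebra.trace K L (v * β m) := fun v m =>
    LinearMap.BilinForm.dualBasis_repr_apply _ _ _ _
  refine ⟨ε, fun v => ?_, fun c m => ?_⟩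
  · simp only [← h, ε.sum_repr]
  · rw [← h, ε.repr_sum_self]

theorem rel_sum {R M I : Type} [CommRing R] [AddCommGroup M] [Module R M] [Fintype I]
    [DecidableEq I] [DecidableEq κ] (Δ : R) (a : κ → R) (i₀ : I) (j : I × κ) (x : I × κ → M) :
    ∑ p : I × κ, ((if p = j then Δ else 0) - if p.1 = i₀ then a p.2 else 0) • x p =
      Δ • x j - ∑ m, a m • x (i₀, m) := by
  simp only [sub_smul, ite_smul, zero_smul, Finset.sum_sub_distrib, Finset.sum_ite_eq',
    Finset.mem_univ, if_true]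
  rw [Fintype.sum_prod_type, Finset.sum_comm]
  simp

theorem pow_add_mem {R : Type} [CommRing R] [Algebra R L] (Γ : Submodule R L) {p : ℕ}
    (hp : p.Prime) (e : ℕ) {x y : L} (hx : x ∈ Γ) (hy : y ∈ Γ) :
    ∃ r ∈ Γ ^ p ^ e, (x + y) ^ p ^ e = x ^ p ^ e + y ^ p ^ e + (p : R) • r := by
  refine ⟨∑ j ∈ Finset.Ioo 0 (p ^ e), x ^ j * y ^ (p ^ e - j) * ↑((p ^ e).choose j / p),
    Submodule.sum_mem _ fun j hj => ?_, ?_⟩
  · have h1 := Submodule.mul_mem_mul (Submodule.pow_mem_pow Γ hx j)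
      (Submodule.pow_mem_pow Γ hy (p ^ e - j))
    rw [← pow_add, Nat.add_sub_cancel' (Finset.mem_Ioo.1 hj).2.le] at h1
    rw [mul_comm, ← nsmul_eq_mul]
    exact nsmul_mem h1 _
  · rw [add_pow_prime_pow_eq' hp, Algebra.smul_def, map_natCast]

theorem fin_pow {s : Set L} (hs : s.Finite) (t : ℕ) : (s ^ t).Finite := by
  induction t with
  | zero => rw [pow_zero]; exact finite_singleton 1
  | succ t ih => rw [pow_succ]; exact ih.mul hs

theorem frob (B : ℕ → L → Prop) (h1 : B 0 1)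
    (hmul : ∀ D D' v v', B D v → B D' v' → B (D + D') (v * v'))
    (htr : ∀ D v, B D v → Pol σ k D (Algebra.trace K L v)) {e : ℕ} (hβ : ∀ m, B e (β m))
    (u : ι → L) (hu : ∀ i, u i ≠ 0) (i₀ : ι) {b : L} (hb0 : b ≠ 0) {t : ℕ} (ht : 0 < t) (d : ℕ)
    (hb : ∀ v ∈ (range fun p : ι × κ => u p.1 * β p.2) ^ t, B (t * d) (b * v)) :
    ∃ η : L, η ≠ 0 ∧ ∀ i m, Pol σ k d (Algebra.trace K L (η * (u i * β m))) := by
  classical
  by_contra hcon
  have hinj := IsFractionRing.injective (MvPolynomial σ k) K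
  obtain ⟨ε, hε, hε'⟩ := exists_dual β
  set g : ι × κ → L := fun p => u p.1 * β p.2 with hg
  have hM : ((fun v => b * v) '' range g ^ t).Finite := (fin_pow (finite_range g) t).image _
  set M := (fun v => b * v) '' range g ^ t with hMe
  -- the relations
  obtain ⟨Δ, hΔ, a, ha⟩ := exists_den σ k β fun p => (u i₀)⁻¹ * g p
  have ha' : ∀ j, Δ • g j = ∑ m, a j m • g (i₀, m) := fun j => by
    have h2 := congrArg (u i₀ * ·) (ha j)
    simp only [mul_smul_comm, mul_inv_cancel_left₀ (hu i₀), Finset.mul_sum] at h2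
    exact h2
  let A : ι × κ → ι × κ → MvPolynomial σ k := fun j p =>
    (if p = j then Δ else 0) - if p.1 = i₀ then a j p.2 else 0
  have hA : ∀ c : ι × κ → MvPolynomial σ k, (∀ p, (c p).totalDegree ≤ d) →
      (∀ j, ∑ p, A j p * c p = 0) → c = 0 := fun c hc h => by
    have h2 : ∀ j, Algebra.trace K L ((u i₀)⁻¹ * (∑ m, algebraMap _ K (c (i₀, m)) • ε m) * g j) =
        algebraMap _ K (c j) := fun j => by
      have h3 := (rel_sum Δ (a j) i₀ j c).symm.trans (h j)
      rw [sub_eq_zero, smul_eq_mul] at h3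
      refine mul_left_cancel₀ ((map_ne_zero_iff _ hinj).2 hΔ) ?_
      rw [← tr_smul, ← mul_smul_comm, ha', ← map_mul, h3, Finset.mul_sum, map_sum,
        map_sum]
      refine Finset.sum_congr rfl fun m _ => ?_
      rw [mul_smul_comm, tr_smul, smul_eq_mul, map_mul (algebraMap _ K), hg, mul_comm (u i₀)⁻¹,
        mul_assoc,
        inv_mul_cancel_left₀ (hu i₀), hε']
    by_contra h3
    refine hcon ⟨_, fun h4 => h3 (funext fun j => hinj ?_), fun i m => ⟨_, hc (i, m), (h2 _).symm⟩⟩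
    rw [← h2, h4]
    simp
  -- the finite algebra generated by the products
  have hT : ∀ v ∈ Algebra.adjoin (MvPolynomial σ k) M, ∀ m,
      ∃ s, algebraMap (MvPolynomial σ k) K s = Algebra.trace K L (v * β m) := fun v hv m => by
    have h2 : v ∈ Submodule.span (MvPolynomial σ k) (Submonoid.closure M : Set L) := by
      rwa [← Algebra.adjoin_eq_span]
    clear hv
    induction h2 using Submodule.span_induction with
    | mem x hx =>
      obtain ⟨D, h3⟩ : ∃ D, B D x := by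
        induction hx using Submonoid.closure_induction with
        | mem x hx =>
          obtain ⟨v, hv, rfl⟩ := hx
          exact ⟨_, hb v hv⟩
        | one => exact ⟨0, h1⟩
        | mul x y _ _ hx hy =>
          obtain ⟨D, h3⟩ := hx
          obtain ⟨D', h4⟩ := hy
          exact ⟨_, hmul _ _ _ _ h3 h4⟩
      exact (htr _ _ (hmul _ _ _ _ h3 (hβ m))).imp fun _ h => h.2
    | zero => exact ⟨0, by simp⟩
    | add x y _ _ hx hy =>
      obtain ⟨s, h3⟩ := hx
      obtain ⟨s', h4⟩ := hy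
      exact ⟨s + s', by rw [add_mul, map_add, map_add, h3, h4]⟩
    | smul c x _ hx =>
      obtain ⟨s, h3⟩ := hx
      exact ⟨c * s, by rw [smul_mul_assoc, tr_smul, map_mul, h3]⟩
  obtain ⟨Y₀, hY₀⟩ : (Subalgebra.toSubmodule (Algebra.adjoin (MvPolynomial σ k) M)).FG := by
    refine (Submodule.fg_span (R := MvPolynomial σ k) (finite_range ε)).of_le fun v hv => ?_
    choose s hs using hT v hv
    rw [hε v]
    refine Submodule.sum_mem _ fun m _ => ?_
    rw [← hs, algebraMap_smul]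
    exact Submodule.smul_mem _ _ (Submodule.subset_span ⟨m, rfl⟩)
  set Y := insert 1 Y₀ with hY
  have hY1 : ∀ y : Y, y.1 ∈ Algebra.adjoin (MvPolynomial σ k) M := fun y => by
    rcases Finset.mem_insert.1 y.2 with h | h
    · rw [h]; exact one_mem _
    · rw [← Subalgebra.mem_toSubmodule, ← hY₀]
      exact Submodule.subset_span h
  have hY2 : ∀ (μ : M) (y : Y), ∃ f : Y → MvPolynomial σ k, ∑ y', f y' • y'.1 = μ.1 * y.1 := by
    intro μ y
    have h2 : μ.1 * y.1 ∈ Subalgebra.toSubmodule (Algebra.adjoin (MvPolynomial σ k) M) :=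
      (Subalgebra.mem_toSubmodule _).2 (mul_mem (Algebra.subset_adjoin μ.2) (hY1 y))
    rw [← hY₀] at h2
    have h3 := Submodule.span_mono (Finset.coe_subset.2 (Finset.subset_insert 1 Y₀)) h2
    rw [← Subtype.range_val (s := ((insert 1 Y₀ : Finset L) : Set L))] at h3
    exact (Submodule.mem_span_range_iff_exists_fun _).1 h3
  choose st hst using hY2
  choose tr htr' using fun p : Y × κ => hT _ (hY1 p.1) p.2
  obtain ⟨m₀, hm₀⟩ : ∃ m, Algebra.trace K L (1 * β m) ≠ 0 := by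
    by_contra h2
    push Not at h2
    have h3 := hε 1
    simp only [h2, zero_smul, Finset.sum_const_zero, one_ne_zero] at h3
  have hg0 : g (i₀, m₀) ≠ 0 := mul_ne_zero (hu _) (β.ne_zero _)
  have hμ0 : b * g (i₀, m₀) ^ t ≠ 0 := mul_ne_zero hb0 (pow_ne_zero _ hg0)
  have hμ : b * g (i₀, m₀) ^ t ∈ M := ⟨_, Set.pow_mem_pow ⟨_, rfl⟩, rfl⟩
  obtain ⟨Δ', hΔ', c', hc'⟩ := exists_den σ k β fun m => (b * g (i₀, m₀) ^ t)⁻¹ * β m
  have := hM.to_subtype
  obtain ⟨S, κ', _, _, π, hF, hπ, hdeg, hsol⟩ := spread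
    ((range fun p : M × Y × Y => st p.1 p.2.1 p.2.2) ∪ range tr ∪
      (range fun p : (ι × κ) × ι × κ => A p.1 p.2) ∪ {Δ'} ∪ range fun p : κ × κ => c' p.1 p.2)
    (((((finite_range _).union (finite_range _)).union (finite_range _)).union
      (finite_singleton _)).union (finite_range _)) A d hA
  -- the module over the small ring
  set N := Submodule.span S (Y : Set L) with hN
  have hN1 : (1 : L) ∈ N := Submodule.subset_span (Finset.mem_insert_self _ _)
  have hN2 : ∀ μ ∈ M, ∀ v ∈ N, μ * v ∈ N := fun μ hμ v hv => by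
    induction hv using Submodule.span_induction with
    | mem y hy =>
      rw [← hst ⟨μ, hμ⟩ ⟨y, hy⟩]
      exact Submodule.sum_mem _ fun y' _ => N.smul_mem
        ⟨_, hF (Or.inl (Or.inl (Or.inl (Or.inl ⟨(⟨μ, hμ⟩, ⟨y, hy⟩, y'), rfl⟩))))⟩
        (Submodule.subset_span y'.2)
    | zero => simp
    | add x y _ _ hx hy => rw [mul_add]; exact add_mem hx hy
    | smul c x _ hx => rw [mul_smul_comm]; exact N.smul_mem _ hx
  have hN3 : ∀ v ∈ N, ∀ m, ∃ s : S, algebraMap _ K s.1 = Algebra.trace K L (v * β m) := by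
    intro v hv m
    induction hv using Submodule.span_induction with
    | mem y hy =>
      exact ⟨⟨_, hF (Or.inl (Or.inl (Or.inl (Or.inr ⟨(⟨y, hy⟩, m), rfl⟩))))⟩, htr' (⟨y, hy⟩, m)⟩
    | zero => exact ⟨0, by simp⟩
    | add x y _ _ hx hy =>
      obtain ⟨s, h3⟩ := hx
      obtain ⟨s', h4⟩ := hy
      exact ⟨s + s', by rw [add_mul, map_add, ← h3, ← h4, ← map_add]; rfl⟩
    | smul c x _ hx =>
      obtain ⟨s, h3⟩ := hx
      exact ⟨c * s, by rw [Subring.smul_def, smul_mul_assoc, tr_smul, ← h3, ← map_mul]; rfl⟩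
  choose! τ hτ using hN3
  have hτ1 : ∀ v ∈ N, ∀ v' ∈ N, ∀ m, τ (v + v') m = τ v m + τ v' m := fun v hv v' hv' m =>
    Subtype.ext (hinj (by
      rw [hτ _ (add_mem hv hv'), Subring.coe_add, map_add, hτ _ hv, hτ _ hv', add_mul, map_add]))
  have hτ2 : ∀ (c : S), ∀ v ∈ N, ∀ m, τ (c • v) m = c * τ v m := fun c v hv m =>
    Subtype.ext (hinj (by
      rw [hτ _ (N.smul_mem c hv), Subring.smul_def, smul_mul_assoc, tr_smul, ← hτ _ hv, ← map_mul]
      rfl))
  have hC0 : ∀ j : ℕ, ∀ x ∈ (range g ^ t) ^ j, b ^ j * x ∈ N ∧ B (j * (t * d)) (b ^ j * x) := by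
    intro j
    induction j with
    | zero =>
      intro x hx
      rw [pow_zero, Set.mem_one] at hx
      simpa [hx] using ⟨hN1, h1⟩
    | succ j ih =>
      intro x hx
      rw [pow_succ'] at hx
      obtain ⟨y, hy, z, hz, rfl⟩ := hx
      rw [pow_succ', mul_mul_mul_comm, add_mul, one_mul, add_comm]
      exact ⟨hN2 _ ⟨y, hy, rfl⟩ _ (ih z hz).1, hmul _ _ _ _ (hb y hy) (ih z hz).2⟩
  have hC2 : ∀ j : ℕ, ∃ m, π (τ ((b * g (i₀, m₀) ^ t) ^ j) m) ≠ 0 := by
    have h2 : ∀ j : ℕ, (b * g (i₀, m₀) ^ t) ^ j ∈ N := fun j => by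
      rw [mul_pow]
      exact (hC0 j _ (Set.pow_mem_pow (Set.pow_mem_pow ⟨_, rfl⟩))).1
    intro j
    induction j with
    | zero =>
      have h3 : (τ 1 m₀).1 = tr (⟨1, Finset.mem_insert_self _ _⟩, m₀) :=
        hinj (by rw [hτ _ hN1, htr'])
      refine ⟨m₀, ?_⟩
      rw [pow_zero]
      refine hπ _ (Or.inl (Or.inl (Or.inl (Or.inr ⟨_, h3.symm⟩)))) fun h4 => hm₀ ?_
      rw [← hτ _ hN1, h4, map_zero]
    | succ j ih =>
      obtain ⟨m, hm⟩ := ih
      by_contra h3
      push Not at h3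
      have h4 : (⟨Δ', hF (Or.inl (Or.inr rfl))⟩ : S) * τ ((b * g (i₀, m₀) ^ t) ^ j) m =
          ∑ m', (⟨c' m m', hF (Or.inr ⟨(m, m'), rfl⟩)⟩ : S) *
            τ ((b * g (i₀, m₀) ^ t) ^ (j + 1)) m' := Subtype.ext (hinj (by
        rw [AddSubmonoidClass.coe_finsetSum, map_sum]
        simp only [Subring.coe_mul, map_mul, hτ _ (h2 _), ← tr_smul]
        rw [← map_sum]
        congr 1
        have h5 := congrArg ((b * g (i₀, m₀) ^ t) ^ (j + 1) * ·) (hc' m)
        simp only [mul_smul_comm, Finset.mul_sum] at h5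
        rw [← h5, pow_succ, mul_assoc _ _ (_ * β m), mul_inv_cancel_left₀ hμ0]))
      have h5 := congrArg π h4
      simp only [map_mul, map_sum, h3, mul_zero, Finset.sum_const_zero] at h5
      exact mul_ne_zero (hπ ⟨Δ', _⟩ (Or.inl (Or.inr rfl)) hΔ') hm h5
  -- Frobenius
  obtain ⟨p, f, hp, hp0, hq, hexp⟩ := exists_q (σ := σ) κ' (t * d + e)
  set q := p ^ f with hqe
  have hq0 : 0 < q := by omega
  obtain ⟨r, hr⟩ : ∃ r, t * (q / t + 1) = q + r ∧ r ≤ t :=
    ⟨t - q % t, by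
      have := Nat.div_add_mod q t
      have := Nat.mod_lt q ht
      rw [mul_add, mul_one]
      omega, Nat.sub_le _ _⟩
  set j := q / t + 1
  set Γ := Submodule.span S (range g) with hΓ
  have hgΓ : ∀ x, g x ∈ Γ := fun x => Submodule.subset_span ⟨x, rfl⟩
  have hC1 : ∀ v ∈ Γ ^ q, v * (g (i₀, m₀) ^ r * b ^ j) ∈ N := fun v hv => by
    have h2 := Submodule.mul_mem_mul hv (Submodule.pow_mem_pow Γ (hgΓ (i₀, m₀)) r)
    rw [← pow_add, ← hr.1, hΓ, Submodule.span_pow, pow_mul] at h2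
    rw [← mul_assoc]
    generalize v * g (i₀, m₀) ^ r = x at h2
    induction h2 using Submodule.span_induction with
    | mem x hx => rw [mul_comm]; exact (hC0 j x hx).1
    | zero => simp
    | add x y _ _ hx hy => rw [add_mul]; exact add_mem hx hy
    | smul c x _ hx => rw [smul_mul_assoc]; exact N.smul_mem _ hx
  obtain ⟨m₁, hm₁⟩ := hC2 j
  obtain ⟨γ, hγ, hγ0⟩ := exists_phi hq0 hm₁
  have hC3 : ∀ v : Γ, v.1 ^ q * (g (i₀, m₀) ^ r * b ^ j) ∈ N := fun v =>
    hC1 _ (Submodule.pow_mem_pow Γ v.2 q)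
  let Φ : Γ →+ MvPolynomial σ κ' := AddMonoidHom.mk'
    (fun v => phi hq0 γ (π (τ (v.1 ^ q * (g (i₀, m₀) ^ r * b ^ j)) m₁))) fun v v' => by
      obtain ⟨z, h2, h3⟩ := pow_add_mem Γ hp f v.2 v'.2
      rw [Submodule.coe_add, h3, add_mul, add_mul, smul_mul_assoc,
        hτ1 _ (add_mem (hC3 v) (hC3 v')) _ (N.smul_mem _ (hC1 z h2)), hτ1 _ (hC3 v) _ (hC3 v'),
        hτ2 _ _ (hC1 z h2), map_add π, map_add π, map_mul, map_natCast, ← map_natCast C, hp0,
        map_zero, zero_mul, add_zero, map_add]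
  have hΦ : ∀ (c : S) (v : Γ), Φ (c • v) = π c * Φ v := fun c v => by
    change phi hq0 γ (π (τ ((c • v.1) ^ q * _) m₁)) = _ * phi hq0 γ _
    rw [smul_pow, smul_mul_assoc, hτ2 _ _ (hC3 v), map_mul, map_pow, hexp, phi_expand hq0 hγ]
  have h2 := hsol (fun j p => ⟨A j p, hF (Or.inl (Or.inl (Or.inr ⟨(j, p), rfl⟩)))⟩)
    (fun _ _ => rfl) (fun x => Φ ⟨g x, hgΓ x⟩) (fun x => ?_) fun x => ?_
  · refine hγ0 (Eq.trans ?_ (congrFun h2 (i₀, m₀)))
    change _ = phi hq0 γ (π (τ (g (i₀, m₀) ^ q * _) m₁))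
    rw [← mul_assoc, ← pow_add, ← hr.1, mul_pow, pow_mul, mul_comm]
  · refine deg_phi hq0 γ _ ((hdeg _).trans_lt ?_)
    have h2 : g x ^ q * g (i₀, m₀) ^ r ∈ (range g ^ t) ^ j := by
      rw [← pow_mul, hr.1, pow_add]
      exact Set.mul_mem_mul (Set.pow_mem_pow ⟨_, rfl⟩) (Set.pow_mem_pow ⟨_, rfl⟩)
    obtain ⟨s, h3, h4⟩ := htr _ _ (hmul _ _ _ _ (hC0 j _ h2).2 (hβ m₁))
    have h5 : (τ (g x ^ q * (g (i₀, m₀) ^ r * b ^ j)) m₁).1 = s := hinj (by
      rw [hτ _ (hC3 ⟨g x, hgΓ x⟩), h4, ← mul_assoc, mul_comm (b ^ j)])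
    rw [h5]
    refine h3.trans_lt ?_
    rw [← mul_assoc, mul_comm j, hr.1, add_mul, mul_add, mul_one]
    have := Nat.mul_le_mul_right d hr.2
    omega
  · simp only [← hΦ]
    rw [← map_sum, ← map_zero Φ]
    congr 1
    apply Subtype.ext
    rw [AddSubmonoidClass.coe_finsetSum]
    exact (rel_sum Δ (a x) i₀ x g).trans (by rw [ha', sub_self]; rfl)

end Pool.Agent.Lib.NV
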