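import Pool.Agent.Lib.NV.Frob
import Pool.Agent.Lib.GD.DG
import Pool.Agent.Lib.GD.MOD

/-! A fixed divisor makes every rationally effective divisor effective. -/

open Set Filter Module Pool.Agent.Lib.MP_e06174_ag Pool.Agent.Lib.MP_e39d36_ag
  Pool.Agent.Lib.MP_e39d36_ag.Var Pool.Agent.Lib.GD Pool.Agent.Lib.DU
open scoped Pointwise

set_option linter.unusedSectionVars false
set_option linter.unusedVariables false

noncomputable section

namespace Pool.Agent.Lib.NV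

variable {K : Type} [Field K] [Algebra ℂ K] {X : Var K} {Q : Prj X} (P : Pro Q 1) (a₀ : P.Y.ι)

/-- The hyperplane section at infinity. -/
def hh (E : X.PD) : ℤ := (plc E).ord (P.z a₀) - ⨅ j, (plc E).ord (Q.y j)

/-- Functions with poles bounded by a multiple of the hyperplane section at infinity. -/
def BB (D : ℕ) (v : K) : Prop := ∀ E : X.PD, (plc E).Ge (-(D * hh P a₀ E)) v

theorem z_ne (a : P.Y.ι) : P.z a ≠ 0 := fun h =>
  (map_ne_zero (algebraMap P.L K)).2 (P.R.ne a) (by rw [P.hu, h, zero_div])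

theorem ge_Fm {G : K} {m : ℕ} (h : G ∈ Q.Fm m) (E : X.PD) :
    (plc E).Ge (m * ⨅ j, (plc E).ord (Q.y j)) G := by
  have h1 := MOD.mem_plc.1 ((ch_spec E.1).1 (Q.div_mem h (ch E.1)))
  have h2 := h1.mul ((Place.ge_ord (p := plc E) (Q.y (ch E.1))).pow m)
  rwa [div_mul_cancel₀ _ (pow_ne_zero _ (Q.ne _)), zero_add, plc_ord, ← DG.hm_eq] at h2

theorem hh_nonneg (E : X.PD) : 0 ≤ hh P a₀ E := by
  have := (ge_Fm (P.mem a₀) E).le (z_ne P a₀)
  simp only [hh]
  omega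

theorem fin_hh : (Function.support (hh P a₀)).Finite := by
  refine ((finite_ord (X := X) (P.z a₀)).union (MOD.fin_hm Q)).subset fun E hE => ?_
  by_contra h
  simp only [mem_union, mem_ofPred_eq, Function.mem_support, not_or, not_not] at h
  exact hE (by rw [hh, h.2, plc_ord, h.1, sub_zero])

theorem alg_div (a b : P.Y.ι) : algebraMap P.L K (P.R.y a / P.R.y b) = P.z a / P.z b := by
  rw [map_div₀, P.hu, P.hu, div_div_div_cancel_right₀ P.d0]

theorem bb_pol {D : ℕ} (s : MvPolynomial {b // b ≠ a₀} ℂ) (hs : s.totalDegree ≤ D) :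
    BB P a₀ D (algebraMap P.L K (MvPolynomial.aeval (DG.tt P.R a₀) s)) := fun E => by
  have h1 := ge_Fm (DG.map_mem Q P.R P.mem P.d0 P.hu (DG.mem_of_pd P.R s hs)) E
  have h2 := h1.mul ((Place.ge_ord (p := plc E) (P.z a₀)⁻¹).pow D)
  rw [map_mul, map_pow, P.hu, div_pow, mul_assoc _ _ (P.d ^ D),
    div_mul_cancel₀ _ (pow_ne_zero _ P.d0), inv_pow,
    mul_inv_cancel_right₀ (pow_ne_zero _ (z_ne P a₀)), Place.ord_inv] at h2
  exact h2.mono (le_of_eq (by rw [hh]; ring))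

theorem bb_tr {D : ℕ} {v : K} (h : BB P a₀ D v) : ∃ s : MvPolynomial {b // b ≠ a₀} ℂ,
    s.totalDegree ≤ D ∧ MvPolynomial.aeval (DG.tt P.R a₀) s = Algebra.trace P.L K v := by
  have := P.fd
  by_cases h0 : Algebra.trace P.L K v = 0
  · exact ⟨0, by simp, by simp [h0]⟩
  have hv : v ≠ 0 := fun e => h0 (by rw [e, map_zero])
  refine (DG.pd_of_mem P.R (DG.mem_Fm P.R P.ind (a := a₀) (d := D) h0 fun G => ?_) a₀).imp
    fun s hs => ⟨hs.1, by rw [hs.2, mul_div_cancel_right₀ _ (pow_ne_zero _ (P.R.ne _))]⟩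
  have h1 : (P.R.y a₀ / P.R.y (ch G.1)) ^ D • v ∈ icl K (P.Y.O G.1) := by
    refine P.π.mem_icl_of_fibre fun x hx => hartogs fun E hE => ?_
    have h1 := (Q.notMem_van (P.mem _) (ch_spec x).1).1
      ((Q.chA_le_iff P.mem P.d0 P.hu (P.nv x) (z_ne P (ch G.1))).1
        ((P.R.A_eq _ ▸ (ch_spec G.1).1).trans (hx ▸ (P.π.dom x).1)))
    have h2 := ord_un (E := E) (h1.mono hE)
    have h3 := (h E).le hv
    rw [pow_one, ord_div (z_ne P _) (Q.ne _)] at h2
    rw [hh, MOD.hm_plc Q ((ch_spec x).1.trans hE), plc_ord, plc_ord] at h3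
    rw [Algebra.smul_def, map_pow, alg_div,
      ord_mul (pow_ne_zero _ (div_ne_zero (z_ne P _) (z_ne P _))) hv, ord_pow,
      ord_div (z_ne P _) (z_ne P _), sub_eq_zero.1 h2]
    linarith
  have h2 := ord_nonneg (E := G) (P.Y.nml G.1 _ (Algebra.isIntegral_trace (L := P.L) (mem_icl.1 h1)))
  rw [map_smul, smul_eq_mul, ord_mul (pow_ne_zero _ (P.R.div_ne _ _)) h0, ord_pow,
    ← P.R.hyp_apply] at h2
  linarith

theorem exists_bb {v : K} (h : ∀ E, hh P a₀ E = 0 → (plc E).Ge 0 v) :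
    ∀ᶠ D in atTop, BB P a₀ D v := by
  have h1 : ∀ᶠ D : ℕ in atTop, ∀ E ∈ Function.support (hh P a₀), -(plc E).ord v ≤ D :=
    (eventually_all_finite (fin_hh P a₀)).2 fun E _ =>
      tendsto_natCast_atTop_atTop.eventually_ge_atTop _
  filter_upwards [h1] with D hD E
  by_cases hE : hh P a₀ E = 0
  · simpa [hE] using h E hE
  · have h2 := hD E hE
    have h3 : 1 ≤ hh P a₀ E := by have := hh_nonneg P a₀ E; omega
    have h4 := mul_le_mul_of_nonneg_left h3 (Int.natCast_nonneg D)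
    exact Place.ge_of_le (by linarith)

theorem exists_fam {A : X.PD →₀ ℤ} (hA : Cart A) (E₀ : X.PD) : ∃ (m : ℕ) (T : Finset X.PD)
    (u : X.PD → K), E₀ ∈ T ∧ (∀ i, u i ≠ 0) ∧
    (∀ i E, A E - m * hh P a₀ E ≤ (plc E).ord (u i)) ∧
    ∀ E, ∃ i ∈ T, A E - m * hh P a₀ E = (plc E).ord (u i) := by
  classical
  obtain ⟨j⟩ := X.nei
  obtain ⟨m, hm⟩ := Q.exists_mov hA.neg j
  choose f h1 h2 h3 using hm
  have h4 : ∀ i E, (plc E).ord (f i * (Q.y j / P.z a₀) ^ m) - (A E - m * hh P a₀ E) =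
      (-A + m • Q.hyp j) E + X.ord (f i) E.1 := fun i E => by
    rw [Place.ord_mul _ (h1 i) (pow_ne_zero _ (div_ne_zero (Q.ne j) (z_ne P _))), Place.ord_pow,
      Place.ord_div _ (Q.ne j) (z_ne P _), hh, DG.hm_eq, Finsupp.add_apply, Finsupp.neg_apply,
      Finsupp.smul_apply, Q.hyp_apply, ord_div (Q.ne _) (Q.ne _)]
    simp only [plc_ord, nsmul_eq_mul]
    ring
  refine ⟨m, insert E₀ (-A + m • Q.hyp j + X.div (f E₀)).support,
    fun i => f i * (Q.y j / P.z a₀) ^ m, Finset.mem_insert_self _ _,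
    fun i => mul_ne_zero (h1 i) (pow_ne_zero _ (div_ne_zero (Q.ne j) (z_ne P _))),
    fun i E => by linarith [h4 i E, h2 i E], fun E => ?_⟩
  by_cases hE : E ∈ (-A + m • Q.hyp j + X.div (f E₀)).support
  · exact ⟨E, Finset.mem_insert_of_mem hE, by linarith [h4 E E, h3 E]⟩
  · have h5 : (-A + m • Q.hyp j) E + X.ord (f E₀) E.1 = 0 := Finsupp.notMem_support_iff.1 hE
    exact ⟨E₀, Finset.mem_insert_self _ _, by linarith [h4 E₀ E]⟩

/-- Non-vanishing with a fixed twist. -/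
theorem nv (Q : Prj X) : ∃ D₀ : X.PD →₀ ℤ, ∀ A : X.PD →₀ ℤ, Cart A → ∀ (t : ℕ) (b : K), 0 < t →
    b ≠ 0 → (∀ E, -(t * A E) ≤ (plc E).ord b) →
    ∃ η : K, η ≠ 0 ∧ ∀ E, -(A E + D₀ E) ≤ (plc E).ord η := by
  classical
  obtain ⟨P⟩ := PROb.pro1 K X Q
  obtain ⟨a₀⟩ := P.Y.nei
  have := P.fd
  have := P.Y.fin
  let : Algebra (MvPolynomial {b // b ≠ a₀} ℂ) P.L :=
    (MvPolynomial.aeval (DG.tt P.R a₀)).toRingHom.toAlgebra
  let : Algebra (MvPolynomial {b // b ≠ a₀} ℂ) K :=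
    ((algebraMap P.L K).comp (algebraMap (MvPolynomial {b // b ≠ a₀} ℂ) P.L)).toAlgebra
  have : IsScalarTower (MvPolynomial {b // b ≠ a₀} ℂ) P.L K := .of_algebraMap_eq fun _ => rfl
  have : FaithfulSMul (MvPolynomial {b // b ≠ a₀} ℂ) P.L :=
    (faithfulSMul_iff_algebraMap_injective _ _).2 (P.ind a₀)
  have : IsFractionRing (MvPolynomial {b // b ≠ a₀} ℂ) P.L := .of_field _ _ fun z => by
    obtain ⟨e, he⟩ := DG.exists_equiv P.R P.ind a₀
    obtain ⟨b, h1, h2, h3⟩ := P.Y.frac a₀ z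
    obtain ⟨p, hp⟩ := e.surjective ⟨b, h1⟩
    obtain ⟨q, hq⟩ := e.surjective ⟨_, h3⟩
    refine ⟨q, p, ?_⟩
    change z = MvPolynomial.aeval _ q / MvPolynomial.aeval _ p
    rw [← he, ← he, hp, hq, mul_div_cancel_left₀ _ h2]
  have : CharZero P.L := algebraRat.charZero _
  have h1 : ∀ m, ∃ s : MvPolynomial {b // b ≠ a₀} ℂ, s ≠ 0 ∧
      IsIntegral (MvPolynomial {b // b ≠ a₀} ℂ) (s • finBasis P.L K m) := fun m =>
    ((IsFractionRing.isAlgebraic_iff _ P.L K).2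
      (Algebra.IsAlgebraic.isAlgebraic _)).exists_integral_multiple
  choose s h1 h2 using h1
  let β := (finBasis P.L K).unitsSMul fun m => Units.mk0 (algebraMap _ P.L (s m))
    ((map_ne_zero_iff _ (IsFractionRing.injective _ _)).2 (h1 m))
  obtain ⟨e, he⟩ := (eventually_all.2 fun m => exists_bb P a₀ (v := β m) fun E hE => by
    rw [Basis.unitsSMul_apply, Units.smul_def, Units.val_mk0, algebraMap_smul]
    exact Place.ge_zero_of_isIntegral _ (fun r => by
      have h3 := bb_pol P a₀ r le_rfl E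
      rwa [hE, mul_zero, neg_zero] at h3) (h2 m)).exists
  obtain ⟨ε, hε, -⟩ := exists_dual β
  refine ⟨e • Finsupp.ofSupportFinite _ (fin_hh P a₀) +
    ∑ m, (X.div (ε m)).mapRange (|·|) abs_zero, fun A hA t b ht hb0 hb => ?_⟩
  by_cases hE : Nonempty X.PD
  swap
  · exact ⟨1, one_ne_zero, fun E => absurd ⟨E⟩ hE⟩
  obtain ⟨E₀⟩ := hE
  obtain ⟨m, T, u, h3, h4, h5, h6⟩ := exists_fam P a₀ hA E₀
  obtain ⟨η, h7, h8⟩ := frob (σ := {b // b ≠ a₀}) (k := ℂ) β (BB P a₀)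
    (fun E => by simpa using Place.ge_one)
    (fun D D' v v' h h' E => (h E).mul' (h' E) (le_of_eq (by push_cast; ring)))
    (fun D v h => bb_tr P a₀ h) he (fun i : T => u i) (fun i => h4 i) ⟨E₀, h3⟩ hb0 ht (m + e)
    fun v hv E => by
      have h7 : ∀ (t : ℕ), ∀ v ∈ (range fun p : T × _ => u p.1 * β p.2) ^ t,
          (plc E).Ge (t * (A E - (m + e) * hh P a₀ E)) v := fun t => by
        induction t with
        | zero =>
          intro v hv
          rw [pow_zero, Set.mem_one] at hv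
          simpa [hv] using Place.ge_one
        | succ t ih =>
          rw [pow_succ]
          rintro _ ⟨v, hv, _, ⟨p, rfl⟩, rfl⟩
          exact (ih v hv).mul' ((Place.ge_of_le (h5 p.1 E)).mul (he p.2 E))
            (le_of_eq (by push_cast; ring))
      exact (Place.ge_of_le (hb E)).mul' (h7 t v hv) (le_of_eq (by push_cast; ring))
  refine ⟨η, h7, fun E => ?_⟩
  obtain ⟨i, hi, h9⟩ := h6 E
  have h10 : (plc E).Ge (-((m + e : ℕ) * hh P a₀ E) - ∑ k, |(plc E).ord (ε k)|) (η * u i) := by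
    rw [hε (η * u i)]
    refine Place.Ge.sum fun k _ => ?_
    obtain ⟨c, h10, h11⟩ := h8 ⟨i, hi⟩ k
    rw [mul_assoc, ← h11, Algebra.smul_def]
    have h12 := Finset.single_le_sum (f := fun k => |(plc E).ord (ε k)|)
      (fun k _ => abs_nonneg _) (Finset.mem_univ k)
    exact (bb_pol P a₀ c h10 E).mul' (Place.ge_ord _) (by linarith [neg_abs_le ((plc E).ord (ε k))])
  have h11 := h10.le (mul_ne_zero h7 (h4 i))
  rw [Place.ord_mul _ h7 (h4 i), ← h9] at h11
  simp only [Finsupp.add_apply, Finsupp.smul_apply, Finsupp.finsetSum_apply, Finsupp.mapRange_apply,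
    div_apply, ← plc_ord, nsmul_eq_mul]
  change -(A E + (e * hh P a₀ E + _)) ≤ _
  push_cast at h11
  linarith

end Pool.Agent.Lib.NV
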