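import Pool.Agent.Lib.GD.BOOT

/-! The limit divisor vanishes when the canonical class is nef in codimension one. -/

open Set Filter Function Pool.Agent.Lib.MP_9a2ae6_ag Pool.Agent.Lib.MP_e06174_ag
  Pool.Agent.Lib.GD Pool.Agent.Lib.GD.BOOT

set_option linter.unusedSectionVars false
set_option linter.unusedVariables false

noncomputable section

namespace Pool.Agent.Lib.NV

variable {L : Type} [Field L] [Algebra ℂ L] {n : ℕ} {C : Ctx L n} {M : Model C} {φ : L →ₐ[ℂ] L}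
  {nn : Place ℂ L → ℝ} (h : Hy M φ nn)
include h

/-- One step of the bootstrap, with linear dependence on the poles. -/
theorem step2 : ∃ α α' : ℝ, 0 ≤ α ∧ 0 ≤ α' ∧ ∀ (D : M.P → ℝ) (eD : ℕ), (support D).Finite →
    (∀ E, 0 ≤ D E) → M.Dm D eD → ∀ (m : ℕ) (u : L) (b : ℝ), u ≠ 0 → 0 ≤ b →
    (∀ E, -gam C nn m u (M.pl E) ≤ b * nn (M.pl E) + D E) →
    ∀ E, -gam C nn m u (M.pl E) ≤ (b / 2 + (α + α' * eD)) * nn (M.pl E) + D E := by
  obtain ⟨eN, heN⟩ := h.exists_eN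
  obtain ⟨K, hK⟩ := h.exists_K
  obtain ⟨cS, hcS⟩ := h.exists_cS
  set N₀ := 2 * (cS * K * (1 + K) * eN) + 1 with hN₀
  obtain ⟨j, hj⟩ := h.kl N₀ (by omega)
  obtain ⟨c₁, hc₁⟩ := h.g5 j
  obtain ⟨c₂, hc₂⟩ := h.g5 (2 * j)
  choose w r hw using fun E => h.dv.above (φ ^ j) (M.pl E)
  have hdw : ∀ E, Dv n (w E) := fun E => (h.dv.dv_iff _ _ _ _ (hw E)).2 (M.dv E)
  choose cw hcw using fun E => h.bas.dm_pb (w E) (hdw E)
  obtain ⟨cW, hcW⟩ := h.exists_bd fun E => cw E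
  refine ⟨cS * K * (1 + K) * eN, cS * K * (1 + K) * (1 + c₂) + K * (cW * c₁), by positivity,
    by positivity, fun D eD hD hD0 heD m u b hu hb hle E => ?_⟩
  have hα : (cS * K * (1 + K) * eN + (cS * K * (1 + K) * (1 + c₂) + K * (cW * c₁)) * eD : ℝ) =
      cS * K * (1 + K) * (eN + eD + c₂ * eD) + K * (cW * (c₁ * eD)) := by ring
  rw [hα]
  by_cases hE : nn (M.pl E) = 0
  · simpa [hE] using hle E
  have hb' : ∀ F, b * nn (M.pl F) ≤ ⌈b⌉₊ * nn (M.pl F) := fun F =>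
    mul_le_mul_of_nonneg_right (Nat.le_ceil b) (h.N0 F)
  set β := ⌈b⌉₊ * eN + eD + c₂ * eD with hβ
  have h1 : M.Dm (fun F => -gam C nn m u (M.pl F)) β :=
    h.add (h.smul heN ⌈b⌉₊) heD (fun F => by linarith [hle F, hb' F]) (by omega)
  have h2 : M.Dm (fun F => -gam C nn m (C.T (φ ^ (2 * j)) m u) (M.pl F)) β :=
    h.add (h.smul heN ⌈b⌉₊) (hc₂ m u b D eD hu hb hD heD hle)
      (fun F => by linarith [hb' F]) (by omega)
  have h3 : ∀ F, nn (M.pl F) ≠ 0 → |gam C nn m (C.T (φ ^ j) m u) (M.pl F)| ≤ cS * β / N₀ :=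
    fun F hF => h.key (M.dv F) (hcS F hF) (by omega) hj hu h1 h2
  set b₁ : ℝ := cS * β / N₀ * K with hb₁
  have hb₁0 : 0 ≤ b₁ := by positivity
  set g : M.P → ℝ := fun F => gam C nn m (C.T (φ ^ j) m u) (M.pl F) with hg
  have hgf : (support g).Finite := h.fsg m _
  have h4 : (support fun F => max (-1 * g F + -b₁ * nn (M.pl F)) 0).Finite :=
    fs_comp (fs_lin hgf h.fsN (-1) (-b₁)) (fun x => max x 0) (max_self 0)
  have h5 : M.Dm (fun F => max (-1 * g F + -b₁ * nn (M.pl F)) 0) (c₁ * eD) := by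
    refine h.mono (h.bas.dm_pos _ _ (hc₁ m u b D eD hu hb hD heD hle)) (fun F => ?_) le_rfl
    by_cases hF : nn (M.pl F) = 0
    · simp [hF, hg]
    · refine max_le (le_trans ?_ (le_max_right _ _)) (le_max_right _ _)
      have h6 := (neg_le_abs _).trans (h3 F hF)
      have h7 : cS * β / N₀ * 1 ≤ (cS * β / N₀ : ℝ) * (K * nn (M.pl F)) :=
        mul_le_mul_of_nonneg_left (hK F hF) (by positivity)
      change -g F ≤ _ at h6
      rw [hb₁]
      linarith
  have h6 := hcw E _ _ h4 h5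
  change pb M (w E) _ ≤ _ at h6
  have h7 := pb_mono (w E) (fs_comp hgf Neg.neg neg_zero) (fs_lin h.fsN h4 b₁ 1) fun F => by
    have := le_max_left (-1 * g F + -b₁ * nn (M.pl F)) 0
    linarith
  rw [pb_neg _ hgf, pb_lin _ h.fsN h4, hg, ← h.g1 (hdw E), h.g2 (hdw E) (hw E) m hu] at h7
  have h8 := mul_le_mul_of_nonneg_left (h.pbN_le (hdw E)) hb₁0
  have h9 := h.lim.inv j _ _ _ (hdw E) (hw E)
  have h10 : (1 : ℝ) ≤ r E := by exact_mod_cast (hw E).1
  have h11 : (cw E : ℝ) * (c₁ * eD : ℕ) ≤ cW * (c₁ * eD) := by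
    push_cast
    exact mul_le_mul_of_nonneg_right (hcW E hE) (by positivity)
  have h12 := hK E hE
  have h13 := h.N0 E
  set x := nn (M.pl E)
  set y := gam C nn m u (M.pl E)
  set A : ℝ := cW * (c₁ * eD)
  have hA : 0 ≤ A := by positivity
  have h14 : r E * -y ≤ r E * (b₁ * (x + 1) + A) := by
    have h15 : b₁ * nn (w E) ≤ b₁ * (r E * (x + 1)) :=
      mul_le_mul_of_nonneg_left (by linarith) hb₁0
    have h16 : A ≤ r E * A := le_mul_of_one_le_left hA h10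
    rw [hg] at h6
    linarith
  have h15 := le_of_mul_le_mul_left h14 (by linarith)
  have h16 : b₁ * (1 + K) ≤ b / 2 + cS * K * (1 + K) * (eN + eD + c₂ * eD) := by
    have h17 : (β : ℝ) ≤ b * eN + (eN + eD + c₂ * eD) := by
      have := mul_le_mul_of_nonneg_right (Nat.ceil_lt_add_one hb).le (Nat.cast_nonneg (α := ℝ) eN)
      rw [hβ]
      push_cast
      linarith
    have hN' : (N₀ : ℝ) = 2 * (cS * K * (1 + K) * eN) + 1 := by rw [hN₀]; push_cast; ring
    set q : ℝ := cS * K * (1 + K)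
    have hq : 0 ≤ q := by positivity
    have h18 : b₁ * (1 + K) = q * β / N₀ := by rw [hb₁]; ring
    have h19 : (1 : ℝ) ≤ N₀ := by rw [hN']; have : 0 ≤ q * eN := by positivity
                                  linarith
    rw [h18, div_le_iff₀ (by linarith)]
    have h20 : q * β ≤ q * (b * eN + (eN + eD + c₂ * eD)) := mul_le_mul_of_nonneg_left h17 hq
    have h21 : q * (eN + eD + c₂ * eD) ≤ q * (eN + eD + c₂ * eD) * N₀ :=
      le_mul_of_one_le_right (by positivity) h19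
    have h22 : q * (b * eN) ≤ b / 2 * N₀ := by rw [hN']; nlinarith
    linarith
  have h17 : b₁ * (x + 1) ≤ b₁ * ((1 + K) * x) := mul_le_mul_of_nonneg_left (by linarith) hb₁0
  have h18 : A ≤ A * (K * x) := le_mul_of_one_le_right hA h12
  have h19 := mul_le_mul_of_nonneg_right h16 h13
  have h20 := hD0 E
  linarith

theorem unif2 : ∃ α α' : ℝ, 0 ≤ α ∧ 0 ≤ α' ∧ ∀ (D : M.P → ℝ) (eD : ℕ), (support D).Finite →
    (∀ E, 0 ≤ D E) → M.Dm D eD → ∀ (m : ℕ) (u : L), u ≠ 0 →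
    (∀ E, -(C.fo (M.pl E) m u : ℝ) ≤ D E) →
    ∀ E, -gam C nn m u (M.pl E) ≤ (α + α' * eD) * nn (M.pl E) + D E := by
  obtain ⟨α, α', h1, h2, hc⟩ := step2 h
  refine ⟨1 + 2 * α, 2 * α', by positivity, by positivity, fun D eD hD hD0 heD m u hu hm E => ?_⟩
  have hc0 : 0 ≤ α + α' * eD := by positivity
  have h3 : ∀ (k : ℕ) (E), -gam C nn m u (M.pl E) ≤
      (m / 2 ^ k + 2 * (α + α' * eD)) * nn (M.pl E) + D E := by
    intro k
    induction k with
    | zero =>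
      intro E
      have h4 := mul_nonneg hc0 (h.N0 E)
      have h5 := hm E
      simp only [gam]
      linarith
    | succ k ih =>
      intro E
      refine (hc D eD hD hD0 heD m u _ hu (by positivity) ih E).trans (le_of_eq ?_)
      ring
  have h4 : (m : ℝ) / 2 ^ m ≤ 1 := by
    rw [div_le_one (by positivity)]
    exact_mod_cast Nat.lt_two_pow_self.le
  have h5 := mul_le_mul_of_nonneg_right h4 (h.N0 E)
  linarith [h3 m E]

theorem nn_zero {v : Place ℂ L} (hv : Dv n v) {g : M.P → ℤ} (hg : {E | g E ≠ 0}.Finite) {c : ℤ}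
    (hE : ∀ N : ℕ, ∃ (t : ℕ) (s : L), 0 < t ∧ s ≠ 0 ∧
      (∀ F, t * g F ≤ C.fo (M.pl F) (t * N) s) ∧ C.fo v (t * N) s ≤ t * c) : nn v = 0 := by
  obtain ⟨α, α', h1, h2, hc⟩ := unif2 h
  have hD : (support fun F => max (-(g F : ℝ)) 0).Finite :=
    fs_comp (fs_cast (M := M) hg) (fun x => max (-x) 0) (by simp)
  obtain ⟨e, he⟩ := h.bas.dm_fin _ (hD.subset fun E hE => ne_of_gt hE)
  obtain ⟨eN, heN⟩ := h.exists_eN
  obtain ⟨cv, hcv⟩ := h.bas.ht_ord v hv
  by_contra h0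
  have h3 : 0 < nn v := lt_of_le_of_ne (h.lim.nonneg v hv) (Ne.symm h0)
  obtain ⟨N, hN⟩ := exists_nat_gt ((cv * (⌈α + α' * e⌉₊ * eN + e : ℕ) + c) / nn v)
  obtain ⟨t, s, ht, hs, h4, h5⟩ := hE N
  have ht' : (1 : ℝ) ≤ t := by exact_mod_cast ht
  have h6 := hc (fun F => t * max (-(g F : ℝ)) 0) (t * e)
    (fs_comp hD (fun x => t * x) (mul_zero _)) (fun F => by positivity) (h.smul he t) (t * N) s hs
    (fun F => by
      have h6 : ((t * g F : ℤ) : ℝ) ≤ C.fo (M.pl F) (t * N) s := by exact_mod_cast h4 F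
      have h7 := mul_le_mul_of_nonneg_left (le_max_left (-(g F : ℝ)) 0) (Nat.cast_nonneg (α := ℝ) t)
      push_cast at h6
      linarith)
  have h7 := h.key0 hv hcv (β := t * (⌈α + α' * e⌉₊ * eN + e)) hs
    (h.add (h.smul (h.smul heN ⌈α + α' * e⌉₊) t) (h.smul he t) (fun F => by
      have h7 := mul_le_mul_of_nonneg_right ht' (mul_nonneg h1 (h.N0 F))
      have h8 := mul_le_mul_of_nonneg_left
        (mul_le_mul_of_nonneg_right (Nat.le_ceil (α + α' * e)) (h.N0 F)) (zero_le_one.trans ht')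
      have h9 := h6 F
      push_cast at h9
      linarith) (le_of_eq (by ring)))
  have h8 : (C.fo v (t * N) s : ℝ) ≤ ((t * c : ℤ) : ℝ) := by exact_mod_cast h5
  have h9 := (neg_le_abs _).trans h7
  rw [div_lt_iff₀ h3] at hN
  have h10 := mul_lt_mul_of_pos_left hN (zero_lt_one.trans_le ht')
  simp only [gam] at h9
  push_cast at h8 h9 h10
  linarith

theorem fo_zero {v : Place ℂ L} (hv : Dv n v) (h0 : nn v = 0) {m : ℕ} {u : L} (hu : u ≠ 0)
    (hm : u ∈ M.Sec m 0) : C.fo v m u = 0 := by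
  obtain ⟨b, e, hb⟩ := h.unif 0
  obtain ⟨c, hc⟩ := h.bas.ht_ord v hv
  have h1 : ∀ j : ℕ, (j : ℝ) * |(C.fo v m u : ℝ)| ≤ c * e := fun j => by
    have h2 := h.key0 hv hc (pow_ne_zero j hu) (h.mono (hb (j * m) (u ^ j) (pow_ne_zero _ hu)
      fun F => ((hm F).pow j).mono (le_of_eq (by simp; ring))).2 (fun F => neg_le_abs _) le_rfl)
    rw [gam, h0, mul_zero, sub_zero] at h2
    refine le_trans (le_of_eq ?_) h2
    rw [← Nat.abs_cast j, ← abs_mul]
    simp only [Ctx.fo, Place.ord_pow]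
    push_cast
    ring_nf
  by_contra h2
  have h3 : (1 : ℝ) ≤ |(C.fo v m u : ℝ)| := by exact_mod_cast Int.one_le_abs h2
  have h4 := h1 (c * e + 1)
  have h5 : (0 : ℝ) ≤ c * e := by positivity
  push_cast at h4
  nlinarith

end Pool.Agent.Lib.NV
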