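import Pool.Agent.Lib.NV.SDefs
import Pool.Agent.Lib.NV.Geo
import Pool.Agent.Lib.NV.Lin
import Pool.Agent.Lib.GD.Main
import Pool.Agent.Lib.MP_9a2ae6_ag.Growth

/-! Non-vanishing and abundance in terms of pseudo-effective and nef canonical classes. -/

open Module Submodule Filter Set Pool.Agent.Lib.MP_9a2ae6_ag Pool.Agent.Lib.MP_e06174_ag Place
  Pool.Agent.Lib.MP_e39d36_ag Pool.Agent.Lib.GD

set_option linter.unusedSectionVars false
set_option linter.unusedVariables false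

noncomputable section

namespace Pool.Agent.Lib.NV

section

open scoped TensorProduct

variable {L ι : Type} [Field L] [Algebra ℂ L] [Fintype ι] (y : ι → L) (n : ℕ)

open Classical in
/-- The global sections of `m K + t H`. -/
def Sec (m t : ℕ) : Submodule ℂ (⨂[L]^m (ExteriorAlgebra L Ω[L⁄ℂ])) :=
  sections ℂ L n m (Finset.univ.image fun j => y j ^ t)

/-- `ω` generates the stalk of `m K + t H` at the point `p` of the chart `y i ≠ 0`. -/
def Gen (m t : ℕ) (i : ι) (p : Ideal (chart y i)) (ω : ⨂[L]^m (ExteriorAlgebra L Ω[L⁄ℂ])) : Prop :=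
  ∀ f : Fin m → Fin n → L, (∀ a b, f a b ∈ stalk y i p) →
    ∃ c ∈ stalk y i p, y i ^ t • pluri ℂ L n m f = c • ω

def Psef₀ : Prop := ∀ N : ℕ, ∃ t : ℕ, 0 < t ∧ Sec y n (t * N) t ≠ ⊥

def Nef₀ : Prop := ∀ (N : ℕ) (i : ι) (q : Ideal (chart y i)), q.IsPrime → q.height = 1 →
  ∃ t : ℕ, 0 < t ∧ ∃ ω ∈ Sec y n (t * N) t, Gen y n (t * N) t i q ω

theorem free_iff (m t : ℕ) (S : Set L) : Free y n m t S ↔ ∃ ω ∈ Sec y n m t,
    ∀ (i : ι) (q : Ideal (chart y i)), q.IsPrime → q.height = 1 → S ⊆ stalk y i q →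
      Gen y n m t i q ω := Iff.rfl

theorem Psef.psef₀ (h : Psef y n) : Psef₀ y n := fun N =>
  (h N).imp fun t h1 => ⟨h1.1, fun h2 => h1.2 (by
    change Module.rank ℂ (Sec y n (t * N) t) = 0
    rw [h2, rank_bot])⟩

theorem NefOne.nef₀ (h : NefOne y n) : Nef₀ y n := fun N i q hq hq' =>
  (h N i q hq hq').imp fun t h1 => ⟨h1.1, ((free_iff y n _ _ _).1 h1.2).imp fun ω h2 =>
    ⟨h2.1, h2.2 i q hq hq' subset_rfl⟩⟩

end

variable {L : Type} [Field L] [Algebra ℂ L] {n : ℕ}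

theorem exists_ctx {ι : Type} [Finite ι] [Nonempty ι] {y : ι → L} (hn : 0 < n)
    (ht : Algebra.trdeg ℂ L = n) (hy : ∀ i, y i ≠ 0 ∧ IsFractionRing (chart y i) L) :
    ∃ (i₀ : ι) (x : Fin n → L) (d : Fin n → Derivation ℂ L L),
      (∀ i z, ∃ b ∈ chart y i, b ≠ 0 ∧ b * z ∈ chart y i) ∧ IsTranscendenceBasis ℂ x ∧
      (∀ i, y i₀ * x i ∈ span ℂ (range y)) ∧ Dual x d := by
  obtain ⟨i₀⟩ := ‹Nonempty ι›
  have := (hy i₀).2
  have : Algebra.IsAlgebraic (Algebra.adjoin ℂ (range fun j => y j / y i₀)) L :=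
    IsLocalization.isAlgebraic (R := chart y i₀) L (nonZeroDivisors _)
  obtain ⟨t, h1, h2⟩ := exists_isTranscendenceBasis_subset (R := ℂ) (range fun j => y j / y i₀)
  obtain ⟨e⟩ : Nonempty (Fin n ≃ t) :=
    Cardinal.eq.1 (by rw [h2.cardinalMk_eq_trdeg, ht, Cardinal.mk_fin])
  have h3 := h2.comp_equiv e
  obtain ⟨d, hd⟩ := GD.exists_dual h3
  refine ⟨i₀, _, d, fun i z => ?_, h3, fun i => ?_, hd⟩
  · have := (hy i).2
    obtain ⟨a, b, hb, rfl⟩ := IsFractionRing.div_surjective (A := chart y i) z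
    have h4 : (b : L) ≠ 0 := fun h => nonZeroDivisors.ne_zero hb (Subtype.ext h)
    exact ⟨b, b.2, h4, by
      change (b : L) * ((a : L) / b) ∈ _
      rw [mul_div_cancel₀ _ h4]; exact a.2⟩
  · obtain ⟨j, hj⟩ := h1 (e i).2
    rw [Function.comp, ← hj, mul_div_cancel₀ _ (hy i₀).1]
    exact subset_span ⟨j, rfl⟩

variable {C : Ctx L n} (F : DVF C) {ι : Type} [Fintype ι] [Nonempty ι] {y : ι → L}

include F in
theorem coef {m t : ℕ} {ω} (hω : ω ∈ Sec y n m t) {v : Place ℂ L} (hv : Dv n v) :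
    ∃ u, v.Ge (t * (⨅ j, v.ord (y j)) - m * kap C.d v) u ∧ ω = form C.x m u := by
  classical
  let T : Submodule v.O.toSubring L :=
    { carrier := {u | v.Ge (t * (⨅ j, v.ord (y j)) - m * kap C.d v) u}
      zero_mem' := Place.ge_zero _
      add_mem' := fun ha hb => ha.add hb
      smul_mem' := fun c _ h => (mem_O.1 c.2).mul' h (by simp) }
  refine C.dual.coeff hω v.O inferInstance (fun c => mem_O.2 (ge_const c)) T fun a ha f hf => ?_
  obtain ⟨j, -, rfl⟩ := Finset.mem_image.1 ha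
  have h1 : v.Ge (⨅ j, v.ord (y j)) (y j) :=
    ge_of_le (ciInf_le (Finite.bddBelow_range fun j => v.ord (y j)) j)
  refine (h1.pow t).mul' (Ge.prod fun b _ => (F.isKap _ hv).1 (f b) fun j => mem_O.1 (hf b j)) ?_
  simp only [Finset.sum_const, Finset.card_univ, Fintype.card_fin, nsmul_eq_mul]
  linarith

include F in
theorem coef' {m t : ℕ} {u : L} (hω : form C.x m u ∈ Sec y n m t) {v : Place ℂ L} (hv : Dv n v) :
    v.Ge (t * (⨅ j, v.ord (y j)) - m * kap C.d v) u := by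
  obtain ⟨u', h2, h3⟩ := coef F hω hv
  rwa [form_injective C.tb m h3]

theorem fin_inf {P : Type} {pl : P → Place ℂ L} (h : ∀ u, {E | (pl E).ord u ≠ 0}.Finite) :
    {E | ⨅ j, (pl E).ord (y j) ≠ 0}.Finite :=
  (finite_iUnion fun j => h (y j)).subset fun E hE => by
    by_contra h1
    simp only [mem_iUnion, mem_ofPred_eq, not_exists, not_not] at h1
    exact hE (by simp [h1])

variable (hN : ∀ i, Nml (chA C.y i).toSubring)
  (hT : ∀ x : (MOD.var C hN).Pt, ∃ t : Fin n → L, (∀ i, t i ∈ (MOD.var C hN).O x) ∧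
    IsTranscendenceBasis ℂ t ∧ ∀ d, Dual t d → ∀ i, ∀ f ∈ (MOD.var C hN).O x,
      d i f ∈ (MOD.var C hN).O x)

include F hT in
theorem reg' [Fintype C.ι] (m t : ℕ) (u : L) (h : ∀ E : (MOD.var C hN).PD,
    (plc E).Ge (t * C.hm (plc E) - m * kap C.d (plc E)) u) : form C.x m u ∈ Sec C.y n m t := by
  classical
  intro O _ hO
  obtain ⟨x, hx⟩ := (MOD.var C hN).exists_ctr_val O hO
  obtain ⟨z, h1, h2, h3⟩ := hT x
  have h4 := mul_ne_zero (pow_ne_zero t (C.ne (Var.ch x))) (pow_ne_zero m (F.jac_ne z h2))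
  have h5 : u / (C.y (Var.ch x) ^ t * jac C.d z ^ m) ∈ (MOD.var C hN).O x := by
    by_cases hu : u = 0
    · simp [hu]
    refine Var.hartogs fun E hE => ?_
    have h5 := (h E).le hu
    have h6 : C.hm (plc E) = _ := MOD.hm_plc (MOD.prj C hN) ((Var.ch_spec x).1.trans hE)
    rw [GD.MOD.kap_loc F h1 h2 h3 hE, plc_ord, h6] at h5
    rw [Var.ord_div hu h4, Var.ord_mul (left_ne_zero_of_mul h4) (right_ne_zero_of_mul h4),
      Var.ord_pow, Var.ord_pow]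
    change _ * (MOD.var C hN).ord (C.y (Var.ch x)) E.1 - _ ≤ _ at h5
    linarith
  have h6 : form C.x m u = (⟨_, hx.1 h5⟩ : O.toSubring) •
      (C.y (Var.ch x) ^ t • pluri ℂ L n m fun _ => z) := by
    rw [C.dual.pluri, Finset.prod_const, Finset.card_univ, Fintype.card_fin]
    change _ = (u / (C.y (Var.ch x) ^ t * jac C.d z ^ m)) •
      C.y (Var.ch x) ^ t • form C.x m (jac C.d z ^ m)
    rw [form, form, smul_smul, smul_smul, mul_assoc, div_mul_cancel₀ _ h4]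
  rw [h6]
  exact Submodule.smul_mem _ _ (Submodule.subset_span
    ⟨_, Finset.mem_image_of_mem _ (Finset.mem_univ _), fun _ => z, fun _ b => hx.1 (h1 b), rfl⟩)

variable (hC : ∀ E : (MOD.var C hN).PD, Var.Cart (Finsupp.single E 1))
  (hdv : ∀ E : (MOD.var C hN).PD, Dv n (plc E))

include F hT hC hdv in
theorem exists_sec (h : Psef₀ y n) : ∃ e : ℕ, ∀ N : ℕ, ∃ u : L, u ≠ 0 ∧
    ∀ E : (MOD.var C hN).PD, (plc E).Ge (e * C.hm (plc E) - N * kap C.d (plc E)) u := by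
  by_cases hE : Nonempty (MOD.var C hN).PD
  swap
  · exact ⟨0, fun N => ⟨1, one_ne_zero, fun E => absurd ⟨E⟩ hE⟩⟩
  obtain ⟨E₀⟩ := hE
  have h0 := fin_inf (y := y) (pl := plc (X := MOD.var C hN)) fun u => by
    simpa only [plc_ord] using Var.finite_ord u
  have h1 : ∀ D : (MOD.var C hN).PD →₀ ℤ, Var.Cart D := fun D x => ⟨_, MOD.locEq_prod hC D x⟩
  obtain ⟨D₀, h2⟩ := nv (MOD.prj C hN)
  obtain ⟨e, he⟩ := (MOD.prj C hN).exists_mov (h1 (Finsupp.ofSupportFinite _ h0 - D₀)) C.i₀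
  obtain ⟨f, h3, h4, -⟩ := he E₀
  refine ⟨e, fun N => ?_⟩
  obtain ⟨t, ht, h5⟩ := h N
  obtain ⟨ω, h6, h7⟩ := (Submodule.ne_bot_iff _).1 h5
  obtain ⟨b, -, rfl⟩ := coef F h6 (hdv E₀)
  have h9 : b ≠ 0 := fun e => h7 (by rw [e, form, zero_smul])
  obtain ⟨η, h10, h11⟩ := h2
    (N • Finsupp.ofSupportFinite (fun E => kap C.d (plc E)) (MOD.fin_kap F (MOD.prj C hN)) -
      Finsupp.ofSupportFinite _ h0) (h1 _) t b ht h9 fun E => by
    refine le_trans (le_of_eq ?_) ((coef' F h6 (hdv E)).le h9)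
    change -((t : ℤ) * (N • kap C.d (plc E) - ⨅ j, (plc E).ord (y j))) = _
    push_cast
    ring
  have h12 := mul_ne_zero h3 (pow_ne_zero e (C.ne C.i₀))
  refine ⟨η * (f * C.y C.i₀ ^ e), mul_ne_zero h10 h12, fun E => ge_of_le ?_⟩
  have h13 := h11 E
  have h14 := h4 E
  have h15 : C.hm (plc E) = _ := DG.hm_eq (MOD.prj C hN) E
  change -(N • kap C.d (plc E) - (⨅ j, (plc E).ord (y j)) + _) ≤ _ at h13
  rw [Finsupp.add_apply, Finsupp.sub_apply, Finsupp.smul_apply, Var.Prj.hyp_apply,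
    Var.ord_div ((MOD.prj C hN).ne _) ((MOD.prj C hN).ne _), ← h15, ← plc_ord, ← plc_ord] at h14
  rw [ord_mul _ h10 h12, ord_mul _ h3 (right_ne_zero_of_mul h12), ord_pow]
  change 0 ≤ (⨅ j, (plc E).ord (y j)) - _ + e • ((plc E).ord (C.y C.i₀) - _) + _ at h14
  simp only [nsmul_eq_mul] at h13 h14
  linarith

include F hT hC hdv in
theorem ne_bot (h : Psef₀ y n) : kappaSigma ℂ L n ≠ ⊥ := by
  classical
  have := Fintype.ofFinite C.ι
  obtain ⟨e, he⟩ := exists_sec F hN hT hC hdv h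
  have h1 : ((0 : ℕ∞) : WithBot ℕ∞) ≤
      growth (plurigenus ℂ L n (Finset.univ.image fun j => C.y j ^ e)) := by
    refine le_growth (h := 0) (a := 1) le_rfl fun t => ?_
    obtain ⟨u, h1, h2⟩ := he (1 * (t + 1))
    rw [pow_zero, Cardinal.one_le_iff_pos, plurigenus_eq, rank_pos_iff_exists_ne_zero]
    exact ⟨⟨_, reg' F hN hT _ e u h2⟩, fun h => form_ne_zero C.tb _ h1 (congrArg Subtype.val h)⟩
  exact fun h2 => WithBot.not_coe_le_bot _
    ((h1.trans (le_iSup (fun W => growth (plurigenus ℂ L n W)) _)).trans (le_of_eq h2))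

theorem exists_pd {i : C.ι} {q : Ideal (chart C.y i)} (hq : q.IsPrime) (h : q.height = 1) :
    ∃ E : (MOD.var C hN).PD, ∀ z, z ∈ stalk C.y i q ↔ (plc E).Ge 0 z := by
  obtain ⟨x, h1, h2⟩ := @Var.exists_pt_prime _ _ _ (MOD.var C hN) i q hq
  obtain ⟨E, hE⟩ : ∃ E : (MOD.var C hN).PD, (MOD.var C hN).O x ≤ (MOD.var C hN).O E.1 := by
    by_contra h3
    obtain ⟨b, h4, h5⟩ := (Submodule.ne_bot_iff _).1 (Ideal.ne_bot_of_height_eq_one h)
    exact (h2 b).1 ⟨fun e => h5 (Subtype.ext e), h1.1 b.2,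
      Var.hartogs fun E hE => absurd ⟨E, hE⟩ h3⟩ h4
  let q' : Ideal (chart C.y i) := mx ((MOD.var C hN).isLoc E.1) (h1.1.trans hE)
  have : q'.IsPrime := inferInstanceAs (mx ((MOD.var C hN).isLoc E.1) (h1.1.trans hE)).IsPrime
  have h3 : q' ≤ q := fun b hb => of_not_not fun h3 => hb (((h2 b).2 h3).mono hE)
  have h4 : q' ≠ ⊥ := fun h4 => (Var.isV E).ne_top (eq_top_iff.2 fun z _ => by
    obtain ⟨b, h5, h6, h7⟩ := C.frac i z
    refine Un.mem_of_mul (of_not_not fun h8 => ?_) (hE (h1.1 h7))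
    have h9 : (⟨b, h5⟩ : chart C.y i) ∈ q' := h8
    rw [h4] at h9
    exact h6 (congrArg Subtype.val h9))
  have h5 : q' = q := h3.eq_or_lt.resolve_right fun h5 => by
    have h6 := Ideal.height_add_one_le_of_lt_of_isPrime h5
    rw [h] at h6
    refine h4 (Ideal.height_eq_zero_iff_eq_bot.1 ?_)
    by_contra h7
    exact absurd ((add_le_add_left (Order.one_le_iff_ne_zero.2 h7) 1).trans h6) (by decide)
  refine ⟨E, fun z => ?_⟩
  rw [← MOD.mem_plc]
  refine ⟨fun ⟨b, h6, h7⟩ => (((h2 b).2 h6).mono hE).mem_of_mul (hE (h1.1 h7)), fun h6 => ?_⟩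
  obtain ⟨b, h7, h8, h9⟩ := (Var.locOf_of_le (h1.1.trans hE)).2 z h6
  exact ⟨⟨b, h7⟩, h5 ▸ fun h10 => h10 h8, h9⟩

theorem exists_place (hn : 0 < n) (ht : Algebra.trdeg ℂ L = n) (hy : NormalModel y) {i : ι}
    {q : Ideal (chart y i)} (hq : q.IsPrime) (h : q.height = 1) :
    ∃ v : Place ℂ L, Dv n v ∧ ∀ z, z ∈ stalk y i q ↔ v.Ge 0 z := by
  obtain ⟨i₀, x, d, h1, h2, h3, h4⟩ := exists_ctx hn ht fun i => ⟨(hy i).1, (hy i).2.1⟩
  let C : Ctx L n := ⟨ι, inferInstance, i₀, y, fun i => (hy i).1, h1, x, h2, h3, d, h4, hn⟩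
  have hN : ∀ i, Nml (chA C.y i).toSubring := fun (i : ι) z hz => by
    have : IsFractionRing (chart y i) L := (hy i).2.1
    have : IsIntegrallyClosed (chart y i) := (hy i).2.2
    obtain ⟨a, rfl⟩ := (IsIntegrallyClosed.isIntegral_iff (R := chart y i) (K := L)).1 hz
    exact a.2
  obtain ⟨E, hE⟩ := exists_pd (C := C) hN hq h
  exact ⟨plc E, (blockDG L n C.x C.tb _ (MOD.prj C hN)).1 E, hE⟩

include F in
theorem le_of_gen {m t : ℕ} {i : ι} {q : Ideal (chart y i)} {v : Place ℂ L} (hv : Dv n v)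
    (h : ∀ z, z ∈ stalk y i q ↔ v.Ge 0 z) (h0 : y i ≠ 0) {s : L}
    (hs : Gen y n m t i q (form C.x m s)) : s ≠ 0 ∧ C.fo v m s ≤ t * v.ord (y i) := by
  obtain ⟨f, h6, h7, h8⟩ := (F.isKap _ hv).2
  obtain ⟨c, h10, h11⟩ := hs (fun _ => f) fun _ b => (h _).2 (h6 b)
  rw [C.dual.pluri, Finset.prod_const, Finset.card_univ, Fintype.card_fin, form, form, smul_smul,
    smul_smul] at h11
  have h12 : y i ^ t * jac C.d f ^ m = c * s := form_injective C.tb _ h11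
  have h13 := mul_ne_zero (pow_ne_zero t h0) (pow_ne_zero m h7)
  have h14 := congrArg v.ord h12
  have h15 := h12 ▸ h13
  have h16 := ((h _).1 h10).le (left_ne_zero_of_mul h15)
  rw [ord_mul _ (left_ne_zero_of_mul h13) (right_ne_zero_of_mul h13), ord_pow, ord_pow, h8,
    ord_mul _ (left_ne_zero_of_mul h15) (right_ne_zero_of_mul h15)] at h14
  refine ⟨right_ne_zero_of_mul h15, ?_⟩
  rw [Ctx.fo]
  linarith

include F in
theorem gen_of_fo {m : ℕ} {i : ι} {q : Ideal (chart y i)} {v : Place ℂ L} (hv : Dv n v)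
    (h : ∀ z, z ∈ stalk y i q ↔ v.Ge 0 z) {u : L} (hu : u ≠ 0) (h0 : C.fo v m u = 0) :
    Gen y n m 0 i q (form C.x m u) := fun f hf => by
  refine ⟨(∏ a, jac C.d (f a)) / u, (h _).2 ?_, ?_⟩
  · have h3 := Ge.prod (s := Finset.univ) fun a _ => (F.isKap _ hv).1 (f a) fun j =>
      (h _).1 (hf a j)
    simp only [Finset.sum_const, Finset.card_univ, Fintype.card_fin, nsmul_eq_mul] at h3
    rw [Ctx.fo] at h0
    rw [div_eq_mul_inv]
    exact h3.mul' (ge_ord _) (by rw [ord_inv]; linarith)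
  · rw [pow_zero, one_smul, C.dual.pluri, form, form, smul_smul, div_mul_cancel₀ _ hu]
    rfl

theorem setup (hS : ∀ i, Algebra.Smooth ℂ (chart C.y i)) :
    ∃ hN : ∀ i, Nml (chA C.y i).toSubring,
      (∀ x : (MOD.var C hN).Pt, ∃ t : Fin n → L, (∀ i, t i ∈ (MOD.var C hN).O x) ∧
        IsTranscendenceBasis ℂ t ∧ ∀ d, Dual t d → ∀ i, ∀ f ∈ (MOD.var C hN).O x,
          d i f ∈ (MOD.var C hN).O x) ∧
      (∀ E : (MOD.var C hN).PD, Var.Cart (Finsupp.single E 1)) ∧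
      ∀ E : (MOD.var C hN).PD, Dv n (plc E) :=
  ⟨fun i => (blockCRD blockET L n C.x C.tb (chart C.y i) (hS i) (C.frac i)).1,
    fun x => (blockCRD blockET L n C.x C.tb (chart C.y (Var.ch x)) (hS _) (C.frac _)).2 _
      (Var.isLoc _ x) (Var.ch_spec x),
    MOD.cart_single fun x E hE => blockFAC blockET L n C.x C.tb (chart C.y (Var.ch x)) (hS _)
      (C.frac _) _ (Var.isLoc _ x) (Var.ch_spec x) E hE,
    (blockDG L n C.x C.tb _ (MOD.prj C _)).1⟩

variable {ι' : Type} [Finite ι'] [Nonempty ι'] {y' : ι' → L} (hn : 0 < n)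
  (ht : Algebra.trdeg ℂ L = n) (hy' : SmoothModel y') {φ : L →ₐ[ℂ] L}
  (hφ : CohHyp ℂ n (span ℂ (range y')) φ)

include hn ht hy' hφ

theorem psef_main₀ (h : Psef₀ y n) : kappaSigma ℂ L n = 0 ∧ kodaira ℂ L n = 0 := by
  obtain ⟨i₀, x, d, h1, h2, h3, h4⟩ := exists_ctx hn ht fun i => ⟨(hy' i).1, (hy' i).2.1⟩
  let C : Ctx L n := ⟨ι', inferInstance, i₀, y', fun i => (hy' i).1, h1, x, h2, h3, d, h4, hn⟩
  obtain ⟨hN, hT, hC, hdv⟩ := setup (C := C) fun i => (hy' i).2.2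
  exact (main L ι' y' n hn ht hy' φ hφ).resolve_left (ne_bot (blockDV L n C) hN hT hC hdv h)

theorem psef_main (h : Psef y n) : kappaSigma ℂ L n = 0 ∧ kodaira ℂ L n = 0 :=
  psef_main₀ hn ht hy' hφ (h.psef₀ y n)

theorem nef_main₀ (hy : NormalModel y) (h : Nef₀ y n) : ∃ m : ℕ, 0 < m ∧ ∃ ω ∈ Sec y n m 0,
    ∀ (i : ι) (q : Ideal (chart y i)), q.IsPrime → q.height = 1 → Gen y n m 0 i q ω := by
  classical
  by_cases h0 : ∃ (i : ι) (q : Ideal (chart y i)), q.IsPrime ∧ q.height = 1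
  swap
  · exact ⟨1, one_pos, 0, zero_mem _, fun i q h1 h2 => absurd ⟨i, q, h1, h2⟩ h0⟩
  obtain ⟨i₁, q₁, hq₁, hq₁'⟩ := h0
  obtain ⟨v₁, hv₁, hv₁'⟩ := exists_place hn ht hy hq₁ hq₁'
  obtain ⟨i₀, x, d, h1, h2, h3, h4⟩ := exists_ctx hn ht fun i => ⟨(hy' i).1, (hy' i).2.1⟩
  let C : Ctx L n := ⟨ι', inferInstance, i₀, y', fun i => (hy' i).1, h1, x, h2, h3, d, h4, hn⟩
  have F := blockDV L n C
  have h5 := (psef_main₀ hn ht hy' hφ (y := y) fun N => by
    obtain ⟨t, h5, ω, h7, h8⟩ := h N i₁ q₁ hq₁ hq₁'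
    obtain ⟨s, -, rfl⟩ := coef F h7 hv₁
    exact ⟨t, h5, (Submodule.ne_bot_iff _).2 ⟨_, h7, form_ne_zero C.tb _
      (le_of_gen F hv₁ hv₁' (hy i₁).1 h8).1⟩⟩).2
  obtain ⟨m, hm, ω, h6, h7⟩ : ∃ m, 0 < m ∧ ∃ ω ∈ Sec y n m 0, ω ≠ 0 := by
    by_contra h6
    push Not at h6
    have h7 : (Finset.univ.image fun j => y j ^ 0) = {1} := by
      simp only [pow_zero]
      exact Finset.image_const Finset.univ_nonempty 1
    rw [kodaira, growth_eq_bot (m₀ := 1) fun m hm => by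
      rw [plurigenus_eq, ← h7]
      exact rank_zero_iff_forall_zero.2 fun ω => Subtype.ext (h6 m hm ω ω.2)] at h5
    exact absurd h5 (by simp)
  obtain ⟨M⟩ := blockMOD (blockCRD blockET) (blockFAC blockET) blockCON blockDG (blockLG blockDV)
    blockDV L n C fun i => (hy' i).2.2
  have hB := blockBAS blockDV blockIZ L n C M
  have hK := END.klp (blockDGH blockCON) hB hφ
  obtain ⟨u, -, rfl⟩ := coef F h6 hv₁
  have hu : u ≠ 0 := fun e => h7 (by rw [e, form, zero_smul])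
  have h11 : ∀ j : ℕ, u ^ j ∈ M.Sec (j * m) (0 : M.P →₀ ℤ) := fun j E =>
    ((coef' F h6 (M.dv E)).pow j).mono (le_of_eq (by simp; ring))
  obtain ⟨nn, hl⟩ := blockLIM blockDV (blockBAS blockDV blockIZ) L n C M φ hK
    (range fun j => j * m) (fun k => u ^ (k / m)) 0
    (infinite_range_of_injective (mul_left_injective₀ hm.ne')) (by
      rintro _ ⟨j, rfl⟩
      rw [Nat.mul_div_cancel _ hm]
      exact ⟨pow_ne_zero _ hu, h11 j⟩)
  have h12 : BOOT.Hy M φ nn := ⟨F, hB, hK, hl, blockFIN blockDV (blockBAS blockDV blockIZ) L n C M φ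
    (blockNIF L n C φ hφ).1 nn hl⟩
  refine ⟨m, hm, _, h6, fun i q hq hq' => ?_⟩
  obtain ⟨v, hv, hv'⟩ := exists_place hn ht hy hq hq'
  refine gen_of_fo F hv hv' hu (fo_zero h12 hv (nn_zero h12 hv (fin_inf (y := y) M.fin_ord)
    (c := v.ord (y i)) fun N => ?_) hu (by simpa using h11 1))
  obtain ⟨t, h13, ω, h15, h16⟩ := h N i q hq hq'
  obtain ⟨s, -, rfl⟩ := coef F h15 hv
  obtain ⟨h17, h18⟩ := le_of_gen F hv hv' (hy i).1 h16
  refine ⟨t, s, h13, h17, fun E => ?_, h18⟩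
  have := (coef' F h15 (M.dv E)).le h17
  rw [Ctx.fo]
  linarith

theorem nef_main (hy : NormalModel y) (h : NefOne y n) : ∃ m : ℕ, 0 < m ∧ Free y n m 0 ∅ := by
  obtain ⟨m, h1, ω, h2, h3⟩ := nef_main₀ hn ht hy' hφ hy (h.nef₀ y n)
  exact ⟨m, h1, (free_iff y n _ _ _).2 ⟨ω, h2, fun i q h4 h5 _ => h3 i q h4 h5⟩⟩

end Pool.Agent.Lib.NV
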