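import Pool.Agent.Lib.GD.SDefs

/-! Pseudo-effective and nef canonical class of a projective model. -/

open scoped TensorProduct

namespace Pool.Agent.Lib.NV

open Pool.Agent.Lib.GD Pool.Agent.Lib.MP_9a2ae6_ag

variable {L ι : Type} [Field L] [Algebra ℂ L] [Fintype ι] (y : ι → L)

open Classical in
/-- The `t`-th powers of the coordinates; they span a free linear system of class `t H`, where `H`
is the hyperplane class. -/
noncomputable def pows (t : ℕ) : Finset L := Finset.univ.image fun j => y j ^ t

/-- The canonical class is pseudo-effective: for every `N` a multiple of `N K + H` is effective. -/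
def Psef (n : ℕ) : Prop := ∀ N : ℕ, ∃ t : ℕ, 0 < t ∧ plurigenus ℂ L n (pows y t) (t * N) ≠ 0

/-- `y` are homogeneous coordinates of a normal projective variety with function field `L`. -/
def NormalModel : Prop :=
  ∀ i, y i ≠ 0 ∧ IsFractionRing (chart y i) L ∧ IsIntegrallyClosed (chart y i)

/-- The local ring at the point `p` of the chart `y i ≠ 0`. -/
def stalk (i : ι) (p : Ideal (chart y i)) : Set L :=
  {z | ∃ b : chart y i, b ∉ p ∧ (b : L) * z ∈ chart y i}

/-- There is a vector `ω`, regular after the twist by `t H`, which along every prime divisor of the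
model whose local ring contains `S` generates all the local vectors `y i ^ t • φ f`. -/
def FreeVec (V α β : Type) [AddCommGroup V] [Module L V] [Module ℂ V] [IsScalarTower ℂ L V]
    (φ : (α → β → L) → V) (t : ℕ) (S : Set L) : Prop :=
  ∃ ω ∈ regular ℂ L V α β φ (pows y t), ∀ (i : ι) (q : Ideal (chart y i)), q.IsPrime →
    q.height = 1 → S ⊆ stalk y i q → ∀ f : α → β → L, (∀ a b, f a b ∈ stalk y i q) →
      ∃ c ∈ stalk y i q, y i ^ t • φ f = c • ω

/-- The same for the `m`-th tensor power, with generators `ψ(f₁) ⊗ ⋯ ⊗ ψ(fₘ)`. -/
def FreePow (V β : Type) [AddCommGroup V] [Module L V] (ψ : (β → L) → V) (m t : ℕ) (S : Set L) :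
    Prop :=
  FreeVec y (⨂[L]^m V) (Fin m) β (fun f => PiTensorProduct.tprod L fun a => ψ (f a)) t S

/-- `m K + t H` has a global section without zeros along the prime divisors whose local ring
contains `S`. -/
def Free (n m t : ℕ) (S : Set L) : Prop :=
  FreePow y (ExteriorAlgebra L Ω[L⁄ℂ]) (Fin n) (wedge L Ω[L⁄ℂ] (KaehlerDifferential.D ℂ L) n) m t S

/-- The canonical class is nef in codimension one: for every `N` and every prime divisor of the
model, a multiple of `N K + H` has a section without zero along that divisor.  This holds when the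
model has canonical singularities and `K` is nef, since `N K + H` is then ample. -/
def NefOne (n : ℕ) : Prop := ∀ (N : ℕ) (i : ι) (q : Ideal (chart y i)), q.IsPrime → q.height = 1 →
  ∃ t : ℕ, 0 < t ∧ Free y n (t * N) t (stalk y i q)

end Pool.Agent.Lib.NV
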